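import Pool.Agent.W_fa9b59_hc.MainHC

set_option autoImplicit false

open MeasureTheory Metric Set

namespace HC60

open FB88 FB88Stmt

/-- monotonicity of the translative covering density per unit area of the body -/
theorem thetaT_mono {K K' : Set E} (hKK : K ⊆ K') (h0 : volume K ≠ 0) (ht : volume K' ≠ ⊤) :
    thetaT K' / volume K' ≤ thetaT K / volume K := by
  have hle : volume K ≤ volume K' := measure_mono hKK
  have ht' : volume K ≠ ⊤ := ne_top_of_le_ne_top ht hle
  have h0' : volume K' ≠ 0 := fun h => h0 (le_antisymm (h ▸ hle) zero_le)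
  rw [ENNReal.le_div_iff_mul_le (Or.inl h0) (Or.inl ht')]
  refine le_iInf₂ fun T hT => ?_
  have hT' : ∀ x : EuclideanSpace ℝ (Fin 2), ∃ t ∈ T, x - t ∈ K' := fun x => by
    obtain ⟨t, h1, h2⟩ := hT x
    exact ⟨t, h1, hKK h2⟩
  have hc : volume K / volume K' ≠ ⊤ := by
    refine ENNReal.div_ne_top ht' h0'
  have h1 : thetaT K' / volume K' * volume K = volume K / volume K' * thetaT K' := by
    rw [div_eq_mul_inv, div_eq_mul_inv]
    ring
  rw [h1]
  refine (mul_le_mul_right (iInf₂_le T hT') _).trans ?_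
  rw [← ENNReal.liminf_const_mul_of_ne_top hc]
  refine Filter.liminf_le_liminf (Filter.Eventually.of_forall fun r => ?_)
  have hsub : {t : EuclideanSpace ℝ (Fin 2) |
      t ∈ T ∧ ∀ k ∈ K', t + k ∈ Metric.closedBall (0 : EuclideanSpace ℝ (Fin 2)) r} ⊆
      {t : EuclideanSpace ℝ (Fin 2) |
      t ∈ T ∧ ∀ k ∈ K, t + k ∈ Metric.closedBall (0 : EuclideanSpace ℝ (Fin 2)) r} :=
    fun t ht => ⟨ht.1, fun k hk => ht.2 k (hKK hk)⟩
  have h2 : ((Set.encard {t : EuclideanSpace ℝ (Fin 2) |
      t ∈ T ∧ ∀ k ∈ K', t + k ∈ Metric.closedBall (0 : EuclideanSpace ℝ (Fin 2)) r} : ℕ∞) : ENNReal) ≤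
      ((Set.encard {t : EuclideanSpace ℝ (Fin 2) |
      t ∈ T ∧ ∀ k ∈ K, t + k ∈ Metric.closedBall (0 : EuclideanSpace ℝ (Fin 2)) r} : ℕ∞) : ENNReal) := by
    exact_mod_cast Set.encard_le_encard hsub
  rw [← mul_div_assoc, ← mul_assoc, mul_comm (volume K / volume K'), mul_assoc,
    ENNReal.div_mul_cancel h0' ht]
  exact ENNReal.div_le_div_right (mul_le_mul_left h2 _) _

/-- the half-convex theorem for bodies K inside a half-convex body K' whose optimal lattice covering
is not thinner -/
theorem main_hc_mono (K K' : Set E) (hc : Convex ℝ K) (hk : IsCompact K)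
    (hi : (interior K).Nonempty) (hc' : Convex ℝ K') (hk' : IsCompact K') (hKK : K ⊆ K')
    (hH : HalfConvex K') (hL : thetaL K / volume K ≤ thetaL K' / volume K') :
    thetaT K = thetaL K := by
  have hK : Body K := ⟨hc, hk, hi.mono interior_subset⟩
  have hi' : (interior K').Nonempty := hi.mono (interior_mono hKK)
  have h0 : volume K ≠ 0 := by
    exact (Measure.measure_pos_of_nonempty_interior volume hi).ne'
  have ht : volume K ≠ ⊤ := hk.measure_lt_top.ne
  refine le_antisymm (thetaT_le_thetaL K hK) ?_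
  have h1 : thetaL K / volume K ≤ thetaT K / volume K := by
    refine hL.trans ?_
    rw [← main_hc K' hc' hk' hi' hH]
    exact thetaT_mono hKK h0 hk'.measure_lt_top.ne
  have h2 := mul_le_mul_left h1 (volume K)
  rwa [ENNReal.div_mul_cancel h0 ht, ENNReal.div_mul_cancel h0 ht] at h2

end HC60
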