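import Pool.Agent.W_fa9b59_hc.Count0

set_option autoImplicit false

open MeasureTheory Metric Set

namespace HC60

open FB88

/-- Counting bound. D with ‖k‖ ≤ D on K; R = A ‖e‖ + H ‖v‖ + 2 D. If the set Z of the t ∈ T with
t + K ⊆ B(0, r) is infinite the right side is ⊤ (s (A+w)(H+M) > 0). Otherwise for ‖z‖ ≤ r - R each point
z + p e + q v is in t + K for some t ∈ T, and t ∈ Z (as in `FB88.count_lower`), so `local_count` applies, and
ofReal (H (A - w)) ≤ ofReal s * ∑ t ∈ Z, indicator (par e v t ..) 1 z by `wset_sub`. Integrate over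
closedBall 0 (r - R) (`setLIntegral_const`, `lintegral_mono`, `lintegral_finsetSum`, `lintegral_indicator_one`) and use `vol_par`: each
parallelogram has area (A + w)(H + M), w = be 0 - al 0. -/
theorem count_hc {K : Set E} (hK : Body K) {e v : E} (hdet : det2 e v = 1) {m M : ℝ}
    {al be : ℝ → ℝ} (hP : Prof M al be)
    (hmem : ∀ u t : ℝ, u • e + (t + m) • v ∈ K ↔ InP M al be u t)
    {s : ℝ} (hs : 0 < s) (hF : FinBound M al be s) {T : Set E} (hT : ∀ x : E, ∃ t ∈ T, x - t ∈ K)
    {A H : ℝ} (hA : 0 < A) (hH : 0 < H) :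
    ∃ R : ℝ, 0 ≤ R ∧ ∀ r : ℝ, R < r →
      ENNReal.ofReal (H * (A - (be 0 - al 0))) * volume (closedBall (0 : E) (r - R)) ≤
        (Set.encard {t : E | t ∈ T ∧ ∀ k ∈ K, t + k ∈ closedBall (0 : E) r} : ENNReal) *
          ENNReal.ofReal (s * ((A + (be 0 - al 0)) * (H + M))) := by
  obtain ⟨D, hD⟩ := hK.2.1.isBounded.exists_norm_le
  have hD0 : 0 ≤ D := by
    obtain ⟨k, hk⟩ := hK.2.2
    exact (norm_nonneg k).trans (hD k hk)
  have hw : 0 ≤ be 0 - al 0 := by
    have h0 : (0 : ℝ) ∈ Set.Icc 0 M := ⟨le_refl _, hP.hM.le⟩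
    have h1 : M ∈ Set.Icc 0 M := ⟨hP.hM.le, le_refl _⟩
    have h2 := hP.ma h0 h1 hP.hM.le
    have h3 := hP.mb h0 h1 hP.hM.le
    have h4 := hP.ab
    linarith
  have hM := hP.hM
  have hpos : 0 < s * ((A + (be 0 - al 0)) * (H + M)) := by positivity
  refine ⟨A * ‖e‖ + H * ‖v‖ + 2 * D, by positivity, ?_⟩
  intro r hr
  set S : Set E := {t : E | t ∈ T ∧ ∀ k ∈ K, t + k ∈ closedBall (0 : E) r} with hS
  by_cases hfin : S.Finite
  · set Z : Finset E := hfin.toFinset with hZ
    have hcardZ : (S.encard : ENNReal) = (Z.card : ENNReal) := by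
      rw [hfin.encard_eq_coe_toFinset_card]
      rfl
    have hpt : ∀ z ∈ closedBall (0 : E) (r - (A * ‖e‖ + H * ‖v‖ + 2 * D)),
        ENNReal.ofReal (H * (A - (be 0 - al 0))) ≤
          ENNReal.ofReal s * ∑ t ∈ Z,
            (par e v t (al 0 - A) (be 0) (m - H) (m + M)).indicator (1 : E → ENNReal) z := by
      intro z hz
      rw [mem_closedBall_zero_iff] at hz
      have hcov : ∀ p q : ℝ, 0 ≤ p → p ≤ A → 0 ≤ q → q ≤ H → ∃ t ∈ Z, z + p • e + q • v - t ∈ K := by
        intro p q hp0 hpA hq0 hqH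
        obtain ⟨t, ht, htK⟩ := hT (z + p • e + q • v)
        refine ⟨t, ?_, htK⟩
        rw [hZ, Set.Finite.mem_toFinset]
        refine ⟨ht, fun k hk => ?_⟩
        rw [mem_closedBall_zero_iff]
        have h1 := hD _ htK
        have h2 := hD _ hk
        have h3 : t + k = z + p • e + q • v - (z + p • e + q • v - t) + k := by abel
        have h4 : ‖p • e‖ ≤ A * ‖e‖ := by
          rw [norm_smul, Real.norm_of_nonneg hp0]
          exact mul_le_mul_of_nonneg_right hpA (norm_nonneg _)
        have h5 : ‖q • v‖ ≤ H * ‖v‖ := by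
          rw [norm_smul, Real.norm_of_nonneg hq0]
          exact mul_le_mul_of_nonneg_right hqH (norm_nonneg _)
        have h6 : ‖z + p • e + q • v‖ ≤ ‖z‖ + ‖p • e‖ + ‖q • v‖ := norm_add₃_le
        rw [h3]
        have h7 : ‖z + p • e + q • v - (z + p • e + q • v - t) + k‖ ≤
            ‖z + p • e + q • v‖ + ‖z + p • e + q • v - t‖ + ‖k‖ :=
          (norm_add_le _ _).trans (add_le_add (norm_sub_le _ _) (le_refl _))
        linarith
      have hloc := local_count hdet hmem hF hA.le hH.le Z z hcov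
      have hle : ((Set.ncard {t : E | t ∈ Z ∧ z ∈ Wset K e v A H t} : ℕ) : ENNReal) ≤
          ∑ t ∈ Z, (par e v t (al 0 - A) (be 0) (m - H) (m + M)).indicator (1 : E → ENNReal) z := by
        classical
        have h1 : Set.ncard {t : E | t ∈ Z ∧ z ∈ Wset K e v A H t} =
            (Z.filter (fun t => z ∈ Wset K e v A H t)).card := by
          rw [← Set.ncard_coe_finset]
          congr 1
          ext t
          simp
        rw [h1, Finset.card_eq_sum_ones, Finset.sum_filter, Nat.cast_sum]
        refine Finset.sum_le_sum fun t _ => ?_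
        by_cases hzt : z ∈ Wset K e v A H t
        · rw [if_pos hzt, Set.indicator_of_mem (wset_sub hdet hP hmem t hzt)]
          simp
        · rw [if_neg hzt]
          simp
      calc ENNReal.ofReal (H * (A - (be 0 - al 0)))
          ≤ ENNReal.ofReal (((Set.ncard {t : E | t ∈ Z ∧ z ∈ Wset K e v A H t} : ℕ) : ℝ) * s) :=
            ENNReal.ofReal_le_ofReal hloc
        _ = ENNReal.ofReal s * ((Set.ncard {t : E | t ∈ Z ∧ z ∈ Wset K e v A H t} : ℕ) : ENNReal) := by
            rw [mul_comm, ENNReal.ofReal_mul hs.le, ENNReal.ofReal_natCast]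
        _ ≤ _ := by gcongr
    rw [hcardZ]
    have hmeas : ∀ t : E, MeasurableSet (par e v t (al 0 - A) (be 0) (m - H) (m + M)) :=
      fun t => (par_compact e v t _ _ _ _).measurableSet
    have hvol : ∀ t : E, volume (par e v t (al 0 - A) (be 0) (m - H) (m + M)) =
        ENNReal.ofReal ((A + (be 0 - al 0)) * (H + M)) := by
      intro t
      rw [vol_par hdet t (by linarith) (by linarith)]
      congr 1
      ring
    calc ENNReal.ofReal (H * (A - (be 0 - al 0))) *
          volume (closedBall (0 : E) (r - (A * ‖e‖ + H * ‖v‖ + 2 * D)))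
        = ∫⁻ _ in closedBall (0 : E) (r - (A * ‖e‖ + H * ‖v‖ + 2 * D)),
            ENNReal.ofReal (H * (A - (be 0 - al 0))) := by
          rw [setLIntegral_const]
      _ ≤ ∫⁻ z in closedBall (0 : E) (r - (A * ‖e‖ + H * ‖v‖ + 2 * D)),
            ENNReal.ofReal s * ∑ t ∈ Z,
              (par e v t (al 0 - A) (be 0) (m - H) (m + M)).indicator (1 : E → ENNReal) z :=
          setLIntegral_mono' isClosed_closedBall.measurableSet hpt
      _ ≤ ∫⁻ z, ENNReal.ofReal s * ∑ t ∈ Z,
              (par e v t (al 0 - A) (be 0) (m - H) (m + M)).indicator (1 : E → ENNReal) z :=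
          setLIntegral_le_lintegral _ _
      _ = ENNReal.ofReal s * ∑ t ∈ Z, volume (par e v t (al 0 - A) (be 0) (m - H) (m + M)) := by
          rw [lintegral_const_mul' _ _ ENNReal.ofReal_ne_top, lintegral_finsetSum]
          · congr 1
            refine Finset.sum_congr rfl fun t _ => ?_
            rw [lintegral_indicator_one (hmeas t)]
          · intro t _
            exact measurable_one.indicator (hmeas t)
      _ = (Z.card : ENNReal) * ENNReal.ofReal (s * ((A + (be 0 - al 0)) * (H + M))) := by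
          rw [Finset.sum_congr rfl (fun t _ => hvol t), Finset.sum_const, nsmul_eq_mul,
            ENNReal.ofReal_mul hs.le]
          ring
  · have h1 : S.encard = ⊤ := Set.encard_eq_top_iff.2 hfin
    rw [h1, ENat.toENNReal_top, ENNReal.top_mul (by
      rw [Ne, ENNReal.ofReal_eq_zero, not_le]; exact hpos)]
    exact le_top

end HC60
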