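import Pool.Agent.W_fa9b59_hc.SetProf

set_option autoImplicit false

open MeasureTheory Metric Set

namespace HC60

open FB88

/-- Coordinates. With f x = f₀ x 0 + f₁ x 1 (f₀ = f (EuclideanSpace.single 0 1), f₁ = f (single 1 1)) let
e = !₂[f₁, -f₀]. Then f e = 0 and det2 e v = f₁ v 1 + f₀ v 0 = f v = 1, and every x equals
det2 x v • e + f x • v. C = {(u, t) : u • e + (t + m) • v ∈ K} is convex (affine preimage), closed, bounded
(u = det2 x v and t = f x - m are continuous functions of x ∈ K; or C is the image of the compact K under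
x ↦ (det2 x v, f x - m)), lies in t ≥ 0 and contains (u, 0) with (u, t). hw: an interior point x0 of K; all points
x0 + α • e + β • v with |α|, |β| small are in K, so take t = f x0 - m + β with β > 0 small and u = det2 x0 v, u + α
(f x0 - m ≥ 0). Apply `prof_of_set`. -/
theorem coord {K : Set E} (hK : Body K) (hi : (interior K).Nonempty) (hH : HalfConvex K) :
    ∃ (e v : E) (m M : ℝ) (al be g : ℝ → ℝ), det2 e v = 1 ∧ Prof M al be ∧
      ConcaveOn ℝ (Set.Icc (al 0) (be 0)) g ∧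
      (∀ u t : ℝ, al 0 ≤ u → u ≤ be 0 → 0 ≤ t → (t ≤ g u ↔ t ≤ M ∧ al t ≤ u ∧ u ≤ be t)) ∧
      (∀ u t : ℝ, u • e + (t + m) • v ∈ K ↔ InP M al be u t) ∧
      ∃ h : ℝ, 0 < h ∧ h ≤ M ∧ al h < be h := by
  obtain ⟨f, v, m, hfv, hm, hproj⟩ := hH
  obtain ⟨hconv, hcomp, -⟩ := hK
  obtain ⟨f0, hf0⟩ : ∃ f0 : ℝ, f0 = f (EuclideanSpace.single 0 1) := ⟨_, rfl⟩
  obtain ⟨f1, hf1⟩ : ∃ f1 : ℝ, f1 = f (EuclideanSpace.single 1 1) := ⟨_, rfl⟩
  have hf : ∀ x : E, f x = f0 * x 0 + f1 * x 1 := by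
    intro x
    have hx : x = x 0 • EuclideanSpace.single (0 : Fin 2) (1 : ℝ)
        + x 1 • EuclideanSpace.single (1 : Fin 2) (1 : ℝ) := by
      ext i
      fin_cases i <;> simp
    conv_lhs => rw [hx]
    rw [map_add, map_smul, map_smul, ← hf0, ← hf1, smul_eq_mul, smul_eq_mul]
    ring
  obtain ⟨e, he⟩ : ∃ e : E, e = !₂[f1, -f0] := ⟨_, rfl⟩
  have he0 : e 0 = f1 := by rw [he]; simp
  have he1 : e 1 = -f0 := by rw [he]; simp
  have hfv' : f0 * v 0 + f1 * v 1 = 1 := by rw [← hf]; exact hfv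
  have hfe : f e = 0 := by rw [hf, he0, he1]; ring
  have hdet : det2 e v = 1 := by
    unfold det2
    rw [he0, he1]
    linarith
  have hfc : ∀ u t : ℝ, f (u • e + t • v) = t := by
    intro u t
    rw [map_add, map_smul, map_smul, hfe, hfv, smul_eq_mul, smul_eq_mul]
    ring
  have hdc : ∀ u t : ℝ, det2 (u • e + t • v) v = u := by
    intro u t
    have h1 : det2 (u • e + t • v) v = u * det2 e v := by
      simp only [det2, PiLp.add_apply, PiLp.smul_apply, smul_eq_mul]
      ring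
    rw [h1, hdet, mul_one]
  have hrep : ∀ x : E, det2 x v • e + f x • v = x := by
    intro x
    ext i
    fin_cases i
    · simp only [det2, PiLp.add_apply, PiLp.smul_apply, smul_eq_mul, hf, Fin.zero_eta, he0]
      linear_combination (x 0) * hfv'
    · simp only [det2, PiLp.add_apply, PiLp.smul_apply, smul_eq_mul, hf, Fin.mk_one, he1]
      linear_combination (x 1) * hfv'
  have hC1 : Convex ℝ {p : ℝ × ℝ | p.1 • e + (p.2 + m) • v ∈ K} := by
    intro p hp q hq a b ha hb hab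
    have h := hconv hp hq ha hb hab
    simp only [mem_setOf_eq, Prod.fst_add, Prod.snd_add, Prod.smul_fst, Prod.smul_snd, smul_eq_mul]
    have h2 : (a * p.1 + b * q.1) • e + (a * p.2 + b * q.2 + m) • v
        = a • (p.1 • e + (p.2 + m) • v) + b • (q.1 • e + (q.2 + m) • v) := by
      have h3 : a * p.2 + b * q.2 + m = a * (p.2 + m) + b * (q.2 + m) := by
        linear_combination (-m) * hab
      rw [h3]
      module
    rw [h2]
    exact h
  have hcontdet : Continuous fun x : E => det2 x v := by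
    unfold det2
    fun_prop
  have hcontf : Continuous fun x : E => f x := f.continuous_of_finiteDimensional
  have hC2 : IsCompact {p : ℝ × ℝ | p.1 • e + (p.2 + m) • v ∈ K} := by
    have h1 : {p : ℝ × ℝ | p.1 • e + (p.2 + m) • v ∈ K}
        = (fun x : E => (det2 x v, f x - m)) '' K := by
      ext p
      simp only [mem_setOf_eq, mem_image]
      constructor
      · intro hp
        refine ⟨_, hp, ?_⟩
        rw [hfc, hdc]
        simp
      · rintro ⟨x, hx, rfl⟩
        simp only [sub_add_cancel]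
        rw [hrep]
        exact hx
    rw [h1]
    exact hcomp.image (by fun_prop)
  have hC3 : ∀ u t : ℝ, (u, t) ∈ {p : ℝ × ℝ | p.1 • e + (p.2 + m) • v ∈ K} → 0 ≤ t := by
    intro u t h
    have h1 := hm _ h
    simp only [hfc] at h1
    linarith
  have hC4 : ∀ u t : ℝ, (u, t) ∈ {p : ℝ × ℝ | p.1 • e + (p.2 + m) • v ∈ K} →
      (u, (0 : ℝ)) ∈ {p : ℝ × ℝ | p.1 • e + (p.2 + m) • v ∈ K} := by
    intro u t h
    have h1 := hproj _ h
    simp only [hfc] at h1
    simp only [mem_setOf_eq, zero_add]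
    have h2 : u • e + m • v = u • e + (t + m) • v - (t + m - m) • v := by module
    rw [h2]
    exact h1
  have hC5 : ∃ u₁ u₂ t : ℝ, 0 < t ∧ u₁ < u₂ ∧
      (u₁, t) ∈ {p : ℝ × ℝ | p.1 • e + (p.2 + m) • v ∈ K} ∧
      (u₂, t) ∈ {p : ℝ × ℝ | p.1 • e + (p.2 + m) • v ∈ K} := by
    obtain ⟨x0, hx0⟩ := hi
    have hK0 : K ∈ nhds x0 := mem_interior_iff_mem_nhds.1 hx0
    have hc : Continuous fun r : ℝ × ℝ => x0 + r.1 • e + r.2 • v := by fun_prop
    have hn : (fun r : ℝ × ℝ => x0 + r.1 • e + r.2 • v) ⁻¹' K ∈ nhds ((0 : ℝ), (0 : ℝ)) := by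
      apply hc.continuousAt.preimage_mem_nhds
      simpa using hK0
    obtain ⟨ε, hε, hsub⟩ := Metric.mem_nhds_iff.1 hn
    have hin : ∀ a b : ℝ, |a| < ε → |b| < ε → x0 + a • e + b • v ∈ K := by
      intro a b ha hb
      have h1 : ((a, b) : ℝ × ℝ) ∈ ball ((0 : ℝ), (0 : ℝ)) ε := by
        rw [mem_ball, Prod.dist_eq]
        simp [ha, hb]
      exact hsub h1
    have h0 : m ≤ f x0 := hm _ (interior_subset hx0)
    have hhalf : |ε / 2| < ε := by
      rw [abs_of_pos (by positivity)]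
      linarith
    have hx : ∀ a : ℝ, (det2 x0 v + a) • e + (f x0 - m + ε / 2 + m) • v
        = x0 + a • e + (ε / 2) • v := by
      intro a
      conv_rhs => rw [← hrep x0]
      module
    refine ⟨det2 x0 v + 0, det2 x0 v + ε / 2, f x0 - m + ε / 2, by linarith, by linarith, ?_, ?_⟩
    · simp only [mem_setOf_eq]
      rw [hx]
      exact hin 0 (ε / 2) (by simpa using hε) hhalf
    · simp only [mem_setOf_eq]
      rw [hx]
      exact hin (ε / 2) (ε / 2) hhalf hhalf
  obtain ⟨M, al, be, g, hP, hg, hr, hC, hh⟩ := prof_of_set hC1 hC2 hC3 hC4 hC5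
  exact ⟨e, v, m, M, al, be, g, hdet, hP, hg, hr, fun u t => hC u t, hh⟩

end HC60
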