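import Pool.Agent.W_fa9b59_hc.Par

set_option autoImplicit false

open MeasureTheory Metric Set

namespace HC60

open FB88

/-- If z + p e + q v - t ∈ K then, in coordinates, z - t = (u - p) e + (τ + m - q) v with (u, τ) in the
profile region, so al 0 ≤ u ≤ be 0, 0 ≤ τ ≤ M (u := det2 (z + p e + q v - t) v, use `coord_ev`). -/
theorem wset_sub {K : Set E} {e v : E} (hdet : det2 e v = 1) {m M : ℝ} {al be : ℝ → ℝ}
    (hP : Prof M al be) (hmem : ∀ u t : ℝ, u • e + (t + m) • v ∈ K ↔ InP M al be u t)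
    {A H : ℝ} (t : E) :
    Wset K e v A H t ⊆ par e v t (al 0 - A) (be 0) (m - H) (m + M) := by
  rintro z ⟨p, q, hp0, hpA, hq0, hqH, hz⟩
  set w : E := z + p • e + q • v - t with hw
  have hwc : w = det2 w v • e + ((det2 e w - m) + m) • v := by
    have h := coord_ev hdet w
    rw [sub_add_cancel]
    exact h
  rw [hwc] at hz
  obtain ⟨h0, hM, hal, hbe⟩ := (hmem _ _).1 hz
  have h00 : (0 : ℝ) ∈ Set.Icc 0 M := ⟨le_refl _, hP.hM.le⟩
  have hτ : (det2 e w - m) ∈ Set.Icc 0 M := ⟨h0, hM⟩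
  have h1 := hP.ma h00 hτ h0
  have h2 := hP.mb h00 hτ h0
  refine ⟨det2 w v - p, (det2 e w - m) + m - q, by linarith, by linarith, by linarith, by linarith, ?_⟩
  have h3 : z = t + w - p • e - q • v := by
    rw [hw]; abel
  rw [h3]
  nth_rewrite 1 [hwc]
  rw [sub_smul, sub_smul]
  abel

/-- Local count: index the finite set {t ∈ Z : z ∈ Wset K e v A H t} by Fin N (`Finset.equivFin`), take
x i = det2 (t i - z) v, Y i = det2 e (t i - z) + m and apply `FinBound`: z + p e + q v - t =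
(p - x) e + ((q - Y) + m) v. -/
theorem local_count {K : Set E} {e v : E} (hdet : det2 e v = 1) {m M : ℝ} {al be : ℝ → ℝ}
    (hmem : ∀ u t : ℝ, u • e + (t + m) • v ∈ K ↔ InP M al be u t)
    {s : ℝ} (hF : FinBound M al be s) {A H : ℝ} (hA : 0 ≤ A) (hH : 0 ≤ H) (Z : Finset E) (z : E)
    (hcov : ∀ p q : ℝ, 0 ≤ p → p ≤ A → 0 ≤ q → q ≤ H → ∃ t ∈ Z, z + p • e + q • v - t ∈ K) :
    H * (A - (be 0 - al 0)) ≤ ((Set.ncard {t : E | t ∈ Z ∧ z ∈ Wset K e v A H t} : ℕ) : ℝ) * s := by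
  classical
  set Z' : Finset E := Z.filter (fun t => z ∈ Wset K e v A H t) with hZ'
  have hcard : Set.ncard {t : E | t ∈ Z ∧ z ∈ Wset K e v A H t} = Z'.card := by
    rw [← Set.ncard_coe_finset]
    congr 1
    ext t
    simp [hZ']
  rw [hcard]
  set φ := Z'.equivFin with hφ
  refine hF Z'.card (fun i => det2 ((φ.symm i : E) - z) v) (fun i => det2 e ((φ.symm i : E) - z) + m)
    A H hA hH ?_
  intro p q hp0 hpA hq0 hqH
  obtain ⟨t, htZ, htK⟩ := hcov p q hp0 hpA hq0 hqH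
  have htZ' : t ∈ Z' := by
    rw [hZ', Finset.mem_filter]
    exact ⟨htZ, p, q, hp0, hpA, hq0, hqH, htK⟩
  refine ⟨φ ⟨t, htZ'⟩, ?_⟩
  rw [← hmem]
  have h1 : ((φ.symm (φ ⟨t, htZ'⟩) : {x // x ∈ Z'}) : E) = t := by
    rw [Equiv.symm_apply_apply]
  simp only [h1]
  have h2 := coord_ev hdet (t - z)
  have h3 : (p - det2 (t - z) v) • e + (q - (det2 e (t - z) + m) + m) • v =
      z + p • e + q • v - t := by
    have h4 : z + p • e + q • v - t = p • e + q • v - (t - z) := by abel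
    rw [h4]
    nth_rewrite 3 [h2]
    rw [sub_smul, show q - (det2 e (t - z) + m) + m = q - det2 e (t - z) by ring, sub_smul]
    abel
  rw [h3]
  exact htK

end HC60
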