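import Pool.Agent.W_fa9b59_d14.Dct

set_option autoImplicit false

open Set

namespace HC60

open FA14

/-- Discrete covering theorem (section 3 of proofs row 542), proved by helper14. -/
theorem dct {N n G Q : ℕ} {a b : ℕ → ℝ} (H : HC n a b) {s : ℝ}
    (hs : ∀ h k : ℕ, h + k ≤ n → PP a b h k + QQ a b h k ≤ s) (a0 b0 : ℝ) (g : ℝ → ℝ)
    (hg : ConcaveOn ℝ (Set.Icc a0 b0) g) (p : ℕ → ℝ) (hp : Monotone p) (d : ℝ) (hd0 : 0 ≤ d)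
    (hd : ∀ m, m < G → p (m + 1) - p m ≤ d) (x : Fin N → ℝ) (y : Fin N → ℕ)
    (hA : ∀ u, a0 ≤ u → u ≤ b0 → ∀ t : ℕ, (t : ℝ) ≤ g u → t + 1 ≤ n ∧ a (t + 1) ≤ u ∧ u ≤ b (t + 1))
    (hcov : ∀ m, m ≤ G → ∀ q : ℕ, q < Q → ∃ i, a0 ≤ p m - x i ∧ p m - x i ≤ b0 ∧ y i ≤ q ∧
      (q : ℝ) ≤ y i + g (p m - x i)) :
    (Q : ℝ) * (p G - p 0 - (b0 - a0)) ≤ N * (s + d * n) :=
  FA14.dct H hs a0 b0 g hg p hp d hd0 hd x y hA hcov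

end HC60
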