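import Pool.Agent.W_fa9b59_hc.Seqs
import Pool.Agent.W_fa9b59_hc.Dct

set_option autoImplicit false

open MeasureTheory Metric Set

namespace HC60

/-- The discrete theorem applied to the levels q η (η = M / n, q < Q = ⌊H/η⌋₊ + 1) and the abscissas
p m = m A / G (any G > 0). Let a0 = al 0, b0 = be 0, profile `fun u => g u / η` (concave), bottoms
y i = ⌈Y i / η⌉₊ (natural ceiling, so ≥ Y i / η and ≥ 0), sequences of Seqs.lean (length n+1), d = A / G.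
hA: t ≤ g u / η means t η ≤ g u, so by hrel t η ≤ M (hence t ≤ n), al (t η) ≤ u ≤ be (t η); and
(t + 1 - 1 : ℕ) = t. hcov: at the point (m A / G, q η) (q η ≤ H) hcov gives i with
q η - Y i ≥ 0, so ⌈Y i / η⌉₊ ≤ q; u = p - x i satisfies al 0 ≤ u ≤ be 0 (monotonicity), and
q η - Y i ≤ g u by hrel, so q ≤ Y i / η + g u / η ≤ y i + g u / η.
Result of `dct` for every G > 0. -/
theorem fin_pre {M : ℝ} {al be : ℝ → ℝ} (hP : Prof M al be) (g : ℝ → ℝ)
    (hg : ConcaveOn ℝ (Set.Icc (al 0) (be 0)) g)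
    (hrel : ∀ u t : ℝ, al 0 ≤ u → u ≤ be 0 → 0 ≤ t → (t ≤ g u ↔ t ≤ M ∧ al t ≤ u ∧ u ≤ be t))
    {s : ℝ} (hs : ∀ h k : ℝ, 0 ≤ h → 0 ≤ k → h + k ≤ M → Jr al be h k ≤ s)
    {N : ℕ} (x Y : Fin N → ℝ) {A H : ℝ} (hA : 0 ≤ A) (hH : 0 ≤ H)
    (hcov : ∀ p q : ℝ, 0 ≤ p → p ≤ A → 0 ≤ q → q ≤ H → ∃ i, InP M al be (p - x i) (q - Y i))
    {n : ℕ} (hn : 0 < n) {G : ℕ} (hG : 0 < G) :
    ((⌊H / (M / n)⌋₊ + 1 : ℕ) : ℝ) * (A - (be 0 - al 0)) ≤
      N * ((s + 2 * (be 0 - al 0) * (M / n)) / (M / n) + A / G * ((n + 1 : ℕ) : ℝ)) := by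
  have hn' : (0 : ℝ) < n := by exact_mod_cast hn
  have hη : 0 < M / n := div_pos hP.hM hn'
  have hG' : (0 : ℝ) < G := by exact_mod_cast hG
  have h0mem : (0 : ℝ) ∈ Set.Icc 0 M := ⟨le_refl _, hP.hM.le⟩
  have hg' : ConcaveOn ℝ (Set.Icc (al 0) (be 0)) (fun u => g u / (M / n)) := by
    have h1 := hg.smul (inv_nonneg.mpr hη.le)
    refine h1.congr fun u _ => ?_
    simp only [smul_eq_mul]
    ring
  have hdA : 0 ≤ A / G := div_nonneg hA hG'.le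
  have key := dct (N := N) (G := G) (Q := ⌊H / (M / n)⌋₊ + 1) (hc_seq hP hn) (hc_sup hP hn hs)
    (al 0) (be 0) (fun u => g u / (M / n)) hg' (fun m : ℕ => (m : ℝ) * (A / G))
    (fun a b hab => mul_le_mul_of_nonneg_right (by exact_mod_cast hab) hdA) (A / G) hdA
    (fun m _ => by push_cast; linarith) x (fun i => ⌈Y i / (M / n)⌉₊) ?_ ?_
  · have e1 : (G : ℝ) * (A / G) = A := by field_simp
    simp only [e1, Nat.cast_zero, zero_mul, sub_zero] at key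
    exact key
  · intro u hu0 hu1 t ht
    have h1 : (t : ℝ) * (M / n) ≤ g u := (le_div_iff₀ hη).mp ht
    have h2 := (hrel u ((t : ℝ) * (M / n)) hu0 hu1 (mul_nonneg (Nat.cast_nonneg _) hη.le)).mp h1
    have h3 : t ≤ n := by
      have h4 : (t : ℝ) * (M / n) ≤ (n : ℝ) * (M / n) := by
        have h5 : (n : ℝ) * (M / n) = M := by field_simp
        rw [h5]
        exact h2.1
      have h6 := le_of_mul_le_mul_right h4 hη
      exact_mod_cast h6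
    refine ⟨by omega, ?_, ?_⟩
    · simpa using h2.2.1
    · simpa using h2.2.2
  · intro m hm q hq
    have hm' : (m : ℝ) ≤ G := by exact_mod_cast hm
    have hp0 : 0 ≤ (m : ℝ) * (A / G) := mul_nonneg (Nat.cast_nonneg _) hdA
    have hp1 : (m : ℝ) * (A / G) ≤ A := by
      calc (m : ℝ) * (A / G) ≤ (G : ℝ) * (A / G) := mul_le_mul_of_nonneg_right hm' hdA
        _ = A := by field_simp
    have hq1 : (q : ℝ) ≤ H / (M / n) := by
      have h1 : q ≤ ⌊H / (M / n)⌋₊ := by omega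
      have h2 : (q : ℝ) ≤ (⌊H / (M / n)⌋₊ : ℝ) := by exact_mod_cast h1
      exact h2.trans (Nat.floor_le (div_nonneg hH hη.le))
    have hq2 : (q : ℝ) * (M / n) ≤ H := (le_div_iff₀ hη).mp hq1
    obtain ⟨i, h1, h2, h3, h4⟩ := hcov ((m : ℝ) * (A / G)) ((q : ℝ) * (M / n)) hp0 hp1
      (mul_nonneg (Nat.cast_nonneg _) hη.le) hq2
    have hmem : (q : ℝ) * (M / n) - Y i ∈ Set.Icc 0 M := ⟨h1, h2⟩
    have h5 : al 0 ≤ (m : ℝ) * (A / G) - x i := (hP.ma h0mem hmem h1).trans h3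
    have h6 : (m : ℝ) * (A / G) - x i ≤ be 0 := h4.trans (hP.mb h0mem hmem h1)
    refine ⟨i, h5, h6, ?_, ?_⟩
    · rw [Nat.ceil_le, div_le_iff₀ hη]
      linarith
    · have h7 := (hrel _ _ h5 h6 h1).mpr ⟨h2, h3, h4⟩
      have h8 : (q : ℝ) ≤ Y i / (M / n) + g ((m : ℝ) * (A / G) - x i) / (M / n) := by
        rw [← add_div, le_div_iff₀ hη]
        linarith
      have h9 : Y i / (M / n) ≤ (⌈Y i / (M / n)⌉₊ : ℝ) := Nat.le_ceil _
      linarith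

end HC60
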