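import Pool.Agent.W_fa9b59_hc.Fin0

set_option autoImplicit false

open MeasureTheory Metric Set

namespace HC60

theorem Fin1_width {M : ℝ} {al be : ℝ → ℝ} (hP : Prof M al be) : 0 ≤ be 0 - al 0 := by
  have h0 : (0 : ℝ) ∈ Set.Icc 0 M := ⟨le_refl _, hP.hM.le⟩
  have hM : M ∈ Set.Icc 0 M := ⟨hP.hM.le, le_refl _⟩
  have h1 := hP.ma h0 hM hP.hM.le
  have h2 := hP.mb h0 hM hP.hM.le
  have h3 := hP.ab
  linarith

/-- If X ≤ B + C / G for all G > 0 then X ≤ B. -/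
theorem Fin1_lim {X B C : ℝ} (h : ∀ G : ℕ, 0 < G → X ≤ B + C / G) : X ≤ B := by
  have ht : Filter.Tendsto (fun G : ℕ => B + C / (G : ℝ)) Filter.atTop (nhds (B + 0)) :=
    tendsto_const_nhds.add (tendsto_const_div_atTop_nhds_zero_nat C)
  rw [add_zero] at ht
  refine ge_of_tendsto ht ?_
  filter_upwards [Filter.eventually_gt_atTop 0] with G hG
  exact h G hG

/-- From `fin_pre`: let G → ∞ (the term A / G * (n+1) tends to 0), multiply by η = M / n > 0 and use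
(⌊H/η⌋₊ + 1) η ≥ H if A ≥ be 0 - al 0; if A < be 0 - al 0 the left side is ≤ 0 and the right side is ≥ 0
(s ≥ Jr 0 0 = 0). -/
theorem fin_step {M : ℝ} {al be : ℝ → ℝ} (hP : Prof M al be) (g : ℝ → ℝ)
    (hg : ConcaveOn ℝ (Set.Icc (al 0) (be 0)) g)
    (hrel : ∀ u t : ℝ, al 0 ≤ u → u ≤ be 0 → 0 ≤ t → (t ≤ g u ↔ t ≤ M ∧ al t ≤ u ∧ u ≤ be t))
    {s : ℝ} (hs : ∀ h k : ℝ, 0 ≤ h → 0 ≤ k → h + k ≤ M → Jr al be h k ≤ s)
    {N : ℕ} (x Y : Fin N → ℝ) {A H : ℝ} (hA : 0 ≤ A) (hH : 0 ≤ H)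
    (hcov : ∀ p q : ℝ, 0 ≤ p → p ≤ A → 0 ≤ q → q ≤ H → ∃ i, InP M al be (p - x i) (q - Y i))
    {n : ℕ} (hn : 0 < n) :
    H * (A - (be 0 - al 0)) ≤ N * (s + 2 * (be 0 - al 0) * (M / n)) := by
  have hD := Fin1_width hP
  have hn' : (0 : ℝ) < n := by exact_mod_cast hn
  have hη : 0 < M / n := div_pos hP.hM hn'
  have hs0 : 0 ≤ s := by
    have := hs 0 0 (le_refl _) (le_refl _) (by have := hP.hM; linarith)
    simpa [Jr] using this
  set D : ℝ := be 0 - al 0 with hDdef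
  set η : ℝ := M / n with hηdef
  have hR : 0 ≤ (N : ℝ) * (s + 2 * D * η) := by positivity
  have key : ((⌊H / η⌋₊ + 1 : ℕ) : ℝ) * (A - D) ≤ N * ((s + 2 * D * η) / η) := by
    refine Fin1_lim (C := N * (A * ((n + 1 : ℕ) : ℝ))) fun G hG => ?_
    have h := fin_pre hP g hg hrel hs x Y hA hH hcov hn hG
    have hG' : (0 : ℝ) < G := by exact_mod_cast hG
    calc ((⌊H / η⌋₊ + 1 : ℕ) : ℝ) * (A - D)
        ≤ N * ((s + 2 * D * η) / η + A / G * ((n + 1 : ℕ) : ℝ)) := h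
      _ = N * ((s + 2 * D * η) / η) + N * (A * ((n + 1 : ℕ) : ℝ)) / G := by
          field_simp
  rcases le_total D A with hDA | hDA
  · have h1 : H ≤ ((⌊H / η⌋₊ + 1 : ℕ) : ℝ) * η := by
      have h2 : H / η < (⌊H / η⌋₊ : ℝ) + 1 := Nat.lt_floor_add_one _
      have h3 : H / η * η < ((⌊H / η⌋₊ : ℝ) + 1) * η := mul_lt_mul_of_pos_right h2 hη
      rw [div_mul_cancel₀ _ hη.ne'] at h3
      push_cast
      exact h3.le
    have h4 : H * (A - D) ≤ ((⌊H / η⌋₊ + 1 : ℕ) : ℝ) * η * (A - D) :=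
      mul_le_mul_of_nonneg_right h1 (by linarith)
    have h5 : ((⌊H / η⌋₊ + 1 : ℕ) : ℝ) * (A - D) * η ≤ N * ((s + 2 * D * η) / η) * η :=
      mul_le_mul_of_nonneg_right key hη.le
    have h6 : (N : ℝ) * ((s + 2 * D * η) / η) * η = N * (s + 2 * D * η) := by
      rw [mul_assoc, div_mul_cancel₀ _ hη.ne']
    calc H * (A - D) ≤ ((⌊H / η⌋₊ + 1 : ℕ) : ℝ) * η * (A - D) := h4
      _ = ((⌊H / η⌋₊ + 1 : ℕ) : ℝ) * (A - D) * η := by ring
      _ ≤ N * (s + 2 * D * η) := by rw [← h6]; exact h5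
  · have h7 : H * (A - D) ≤ 0 := mul_nonpos_of_nonneg_of_nonpos hH (by linarith)
    exact h7.trans hR

/-- Finite theorem: `fin_step` for all n, n → ∞. -/
theorem fin_bound {M : ℝ} {al be : ℝ → ℝ} (hP : Prof M al be) (g : ℝ → ℝ)
    (hg : ConcaveOn ℝ (Set.Icc (al 0) (be 0)) g)
    (hrel : ∀ u t : ℝ, al 0 ≤ u → u ≤ be 0 → 0 ≤ t → (t ≤ g u ↔ t ≤ M ∧ al t ≤ u ∧ u ≤ be t))
    {s : ℝ} (hs : ∀ h k : ℝ, 0 ≤ h → 0 ≤ k → h + k ≤ M → Jr al be h k ≤ s) :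
    FinBound M al be s := by
  intro N x Y A H hA hH hcov
  refine Fin1_lim (C := N * (2 * (be 0 - al 0) * M)) fun n hn => ?_
  have h := fin_step hP g hg hrel hs x Y hA hH hcov hn
  have hn' : (0 : ℝ) < n := by exact_mod_cast hn
  calc H * (A - (be 0 - al 0)) ≤ N * (s + 2 * (be 0 - al 0) * (M / n)) := h
    _ = N * s + N * (2 * (be 0 - al 0) * M) / n := by
        field_simp

end HC60
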