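import Pool.Agent.W_fa9b59_hc.Count

set_option autoImplicit false

open MeasureTheory Metric Set

namespace HC60

open FB88

/-- For fixed A, H: from `count_hc`, divided by volume (closedBall 0 r); the ratio
volume (closedBall 0 (r - R)) / volume (closedBall 0 r) = ((r-R)/r)^2 tends to 1 (copy the proof of
`FB88.liminf_lower` in W_fa9b59_h88/Lim.lean). -/
theorem low_AH {K : Set E} (hK : Body K) {e v : E} (hdet : det2 e v = 1) {m M : ℝ}
    {al be : ℝ → ℝ} (hP : Prof M al be)
    (hmem : ∀ u t : ℝ, u • e + (t + m) • v ∈ K ↔ InP M al be u t)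
    {s : ℝ} (hs : 0 < s) (hF : FinBound M al be s) {T : Set E} (hT : ∀ x : E, ∃ t ∈ T, x - t ∈ K)
    {A H : ℝ} (hA : 0 < A) (hH : 0 < H) :
    volume K / ENNReal.ofReal s *
        ENNReal.ofReal (H * (A - (be 0 - al 0)) / ((A + (be 0 - al 0)) * (H + M))) ≤
      Filter.liminf (fun r : ℝ =>
        ((Set.encard {t : E | t ∈ T ∧ ∀ k ∈ K, t + k ∈ closedBall (0 : E) r} : ENNReal) *
          volume K) / volume (closedBall (0 : E) r)) Filter.atTop := by
  obtain ⟨R, hR0, hR⟩ := count_hc hK hdet hP hmem hs hF hT hA hH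
  have hw : 0 ≤ be 0 - al 0 := by
    have h0 : (0 : ℝ) ∈ Set.Icc 0 M := ⟨le_refl _, hP.hM.le⟩
    have h1 : M ∈ Set.Icc 0 M := ⟨hP.hM.le, le_refl _⟩
    have h2 := hP.ma h0 h1 hP.hM.le
    have h3 := hP.mb h0 h1 hP.hM.le
    have h4 := hP.ab
    linarith
  have hM := hP.hM
  have hp : 0 < (A + (be 0 - al 0)) * (H + M) := by positivity
  have hKfin : volume K ≠ ⊤ := hK.2.1.measure_lt_top.ne
  set p : ℝ := (A + (be 0 - al 0)) * (H + M) with hpdef
  set c : ℝ := H * (A - (be 0 - al 0)) with hcdef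
  set β : ENNReal := volume (ball (0 : E) 1) with hβ
  have hβ0 : β ≠ 0 := (measure_ball_pos volume (0 : E) one_pos).ne'
  have hβt : β ≠ ⊤ := measure_ball_lt_top.ne
  have hs0 : ENNReal.ofReal s ≠ 0 := by
    rw [Ne, ENNReal.ofReal_eq_zero, not_le]; exact hs
  have hp0 : ENNReal.ofReal p ≠ 0 := by
    rw [Ne, ENNReal.ofReal_eq_zero, not_le]; exact hp
  have hball : ∀ r : ℝ, 0 ≤ r → volume (closedBall (0 : E) r) = ENNReal.ofReal (r ^ 2) * β := by
    intro r hr
    rw [Measure.addHaar_closedBall volume (0 : E) hr, finrank_euclideanSpace, Fintype.card_fin]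
  have hbound : ∀ r : ℝ, R < r →
      volume K / ENNReal.ofReal s * ENNReal.ofReal (c / p) * ENNReal.ofReal (((r - R) / r) ^ 2) ≤
      ((Set.encard {t : E | t ∈ T ∧ ∀ k ∈ K, t + k ∈ closedBall (0 : E) r}
        : ENNReal) * volume K) / volume (closedBall (0 : E) r) := by
    intro r hr
    have hr0 : 0 < r := by linarith
    have h1 := hR r hr
    rw [hball _ (by linarith)] at h1
    rw [hball r hr0.le]
    have hr2 : ENNReal.ofReal (r ^ 2) ≠ 0 := by
      rw [Ne, ENNReal.ofReal_eq_zero, not_le]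
      positivity
    rw [ENNReal.le_div_iff_mul_le (Or.inl (mul_ne_zero hr2 hβ0))
      (Or.inl (ENNReal.mul_ne_top ENNReal.ofReal_ne_top hβt))]
    have h2 : ENNReal.ofReal c * (ENNReal.ofReal ((r - R) ^ 2) * β) /
        (ENNReal.ofReal s * ENNReal.ofReal p) ≤
        (Set.encard {t : E | t ∈ T ∧ ∀ k ∈ K, t + k ∈ closedBall (0 : E) r} : ENNReal) := by
      refine ENNReal.div_le_of_le_mul ?_
      rw [← ENNReal.ofReal_mul hs.le]
      exact h1
    have h3 : ENNReal.ofReal (((r - R) / r) ^ 2) * ENNReal.ofReal (r ^ 2) =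
        ENNReal.ofReal ((r - R) ^ 2) := by
      rw [← ENNReal.ofReal_mul (by positivity)]
      congr 1
      rw [← mul_pow, div_mul_cancel₀ _ hr0.ne']
    calc volume K / ENNReal.ofReal s * ENNReal.ofReal (c / p) *
          ENNReal.ofReal (((r - R) / r) ^ 2) * (ENNReal.ofReal (r ^ 2) * β)
        = volume K / ENNReal.ofReal s * ENNReal.ofReal (c / p) *
          (ENNReal.ofReal (((r - R) / r) ^ 2) * ENNReal.ofReal (r ^ 2)) * β := by ring
      _ = ENNReal.ofReal c * (ENNReal.ofReal ((r - R) ^ 2) * β) /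
        (ENNReal.ofReal s * ENNReal.ofReal p) * volume K := by
          rw [h3, ENNReal.ofReal_div_of_pos hp, ENNReal.div_eq_inv_mul, ENNReal.div_eq_inv_mul,
            ENNReal.div_eq_inv_mul, ENNReal.mul_inv (Or.inl hs0) (Or.inl ENNReal.ofReal_ne_top)]
          ring
      _ ≤ _ := by gcongr
  have hlim : Filter.Tendsto (fun r : ℝ => volume K / ENNReal.ofReal s * ENNReal.ofReal (c / p) *
      ENNReal.ofReal (((r - R) / r) ^ 2))
      Filter.atTop (nhds (volume K / ENNReal.ofReal s * ENNReal.ofReal (c / p))) := by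
    have h1 : Filter.Tendsto (fun r : ℝ => ((r - R) / r) ^ 2) Filter.atTop (nhds 1) := by
      have h2 : Filter.Tendsto (fun r : ℝ => 1 - R / r) Filter.atTop (nhds (1 - 0)) :=
        tendsto_const_nhds.sub (Filter.Tendsto.div_atTop tendsto_const_nhds Filter.tendsto_id)
      have h3 : Filter.Tendsto (fun r : ℝ => (1 - R / r) ^ 2) Filter.atTop (nhds 1) := by
        have := h2.pow 2
        simpa using this
      refine h3.congr' ?_
      filter_upwards [Filter.eventually_gt_atTop (0 : ℝ)] with r hr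
      congr 1
      field_simp
    have h4 := ENNReal.Tendsto.const_mul (a := volume K / ENNReal.ofReal s * ENNReal.ofReal (c / p))
      (ENNReal.tendsto_ofReal h1)
      (Or.inr (ENNReal.mul_ne_top (ENNReal.div_ne_top hKfin hs0) ENNReal.ofReal_ne_top))
    simpa using h4
  rw [← hlim.liminf_eq]
  refine Filter.liminf_le_liminf ?_
  filter_upwards [Filter.eventually_gt_atTop R] with r hr
  exact hbound r hr

/-- Lower bound: `low_AH` with A = H = j, j → ∞: the factor j (j - w) / ((j + w)(j + M)) tends to 1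
(`ENNReal.Tendsto.const_mul`, `le_of_tendsto'`); volume K / ofReal s is finite. -/
theorem low_hc {K : Set E} (hK : Body K) {e v : E} (hdet : det2 e v = 1) {m M : ℝ}
    {al be : ℝ → ℝ} (hP : Prof M al be)
    (hmem : ∀ u t : ℝ, u • e + (t + m) • v ∈ K ↔ InP M al be u t)
    {s : ℝ} (hs : 0 < s) (hF : FinBound M al be s) {T : Set E}
    (hT : ∀ x : E, ∃ t ∈ T, x - t ∈ K) :
    volume K / ENNReal.ofReal s ≤
      Filter.liminf (fun r : ℝ =>
        ((Set.encard {t : E | t ∈ T ∧ ∀ k ∈ K, t + k ∈ closedBall (0 : E) r} : ENNReal) *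
          volume K) / volume (closedBall (0 : E) r)) Filter.atTop := by
  have hKfin : volume K ≠ ⊤ := hK.2.1.measure_lt_top.ne
  have hs0 : ENNReal.ofReal s ≠ 0 := by
    rw [Ne, ENNReal.ofReal_eq_zero, not_le]; exact hs
  set w : ℝ := be 0 - al 0 with hwdef
  have h1 : Filter.Tendsto (fun j : ℝ => j * (j - w) / ((j + w) * (j + M))) Filter.atTop
      (nhds 1) := by
    have hz : ∀ a : ℝ, Filter.Tendsto (fun j : ℝ => a / j) Filter.atTop (nhds 0) := fun a =>
      Filter.Tendsto.div_atTop tendsto_const_nhds Filter.tendsto_id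
    have h2 : Filter.Tendsto (fun j : ℝ => (1 - w / j) / ((1 + w / j) * (1 + M / j))) Filter.atTop
        (nhds ((1 - 0) / ((1 + 0) * (1 + 0)))) := by
      refine Filter.Tendsto.div (tendsto_const_nhds.sub (hz w))
        ((tendsto_const_nhds.add (hz w)).mul (tendsto_const_nhds.add (hz M))) (by norm_num)
    have h3 : ((1 : ℝ) - 0) / ((1 + 0) * (1 + 0)) = 1 := by norm_num
    rw [h3] at h2
    refine h2.congr' ?_
    filter_upwards [Filter.eventually_gt_atTop (0 : ℝ), Filter.eventually_gt_atTop (-w),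
      Filter.eventually_gt_atTop (-M)] with j hj hj1 hj2
    have h4 : j + w ≠ 0 := by intro h; linarith
    have h5 : j + M ≠ 0 := by intro h; linarith
    have h6 : j ≠ 0 := hj.ne'
    field_simp
  have h2 := ENNReal.Tendsto.const_mul (a := volume K / ENNReal.ofReal s)
      (ENNReal.tendsto_ofReal h1) (Or.inr (ENNReal.div_ne_top hKfin hs0))
  rw [ENNReal.ofReal_one, mul_one] at h2
  refine le_of_tendsto h2 ?_
  filter_upwards [Filter.eventually_gt_atTop (0 : ℝ)] with j hj
  exact low_AH hK hdet hP hmem hs hF hT hj hj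

end HC60
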