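import Pool.Agent.W_fa9b59_hc.Prof
import Pool.Agent.W_fa9b59_h88.Stmt

set_option autoImplicit false

open MeasureTheory Metric Set

namespace HC60

open FB88 FB88Stmt

theorem Up_det (e v : E) (a b a' b' : ℝ) :
    det2 (a • e + b • v) (a' • e + b' • v) = (a * b' - b * a') * det2 e v := by
  simp only [det2, PiLp.add_apply, PiLp.smul_apply, smul_eq_mul]
  ring

/-- Lattice covering. T = h + k, φ(u,t) = u • e + (t + m) • v. The six points φ(al h, h), φ(al T, T),
φ(be T, T), φ(be k, k), φ(al h + be k - al T, 0), φ(al h + be k - be T, 0) are in K (for the last two: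
al 0 ≤ al h ≤ al h + be k - be T ≤ al h + be k - al T ≤ be k ≤ be 0). Centre c = φ((al h + be k)/2, T/2). Let
p₁ = φ(al h + be k - al T, 0) - c, p₂ = φ(be k, k) - c, p₃ = φ(be T, T) - c; then c - p₁ = φ(al T, T),
c - p₂ = φ(al h, h), c - p₃ = φ(al h + be k - be T, 0). In terms of coordinates (det2 e v = 1):
det2 p₁ p₂ = (k (be k - al T) + h (al T - al h)) / 2, det2 p₂ p₃ = (k (be k - be T) + h (be T - al h)) / 2,
det2 p₁ p₃ = T (be T - al T) / 2, all ≥ 0, their sum is Jr al be h k. Apply `FB88.hex_lat` (HexLat.lean)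
and iInf₂_le. -/
theorem thetaL_le {K : Set E} (hc : Convex ℝ K) {e v : E} (hdet : det2 e v = 1) {m M : ℝ}
    {al be : ℝ → ℝ} (hP : Prof M al be)
    (hmem : ∀ u t : ℝ, u • e + (t + m) • v ∈ K ↔ InP M al be u t) {h k : ℝ} (hh : 0 ≤ h)
    (hk : 0 ≤ k) (hhk : h + k ≤ M) (hJ : 0 < Jr al be h k) :
    thetaL K ≤ volume K / ENNReal.ofReal (Jr al be h k) := by
  have i0 : (0 : ℝ) ∈ Set.Icc 0 M := ⟨le_rfl, hP.hM.le⟩
  have iM : M ∈ Set.Icc 0 M := ⟨hP.hM.le, le_rfl⟩
  have ih : h ∈ Set.Icc 0 M := ⟨hh, by linarith⟩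
  have ik : k ∈ Set.Icc 0 M := ⟨hk, by linarith⟩
  have iT : h + k ∈ Set.Icc 0 M := ⟨by linarith, hhk⟩
  have a1 : al 0 ≤ al h := hP.ma i0 ih hh
  have a2 : al h ≤ al (h + k) := hP.ma ih iT (by linarith)
  have a3 : al (h + k) ≤ al M := hP.ma iT iM hhk
  have a4 : al k ≤ al (h + k) := hP.ma ik iT (by linarith)
  have b1 : be k ≤ be 0 := hP.mb i0 ik hk
  have b2 : be (h + k) ≤ be k := hP.mb ik iT (by linarith)
  have b3 : be M ≤ be (h + k) := hP.mb iT iM hhk
  have b4 : be (h + k) ≤ be h := hP.mb ih iT (by linarith)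
  have ab := hP.ab
  have hT : al (h + k) ≤ be (h + k) := by linarith
  -- the six points
  have m1 : al h • e + (h + m) • v ∈ K := (hmem _ _).2 ⟨hh, by linarith, le_rfl, by linarith⟩
  have m2 : al (h + k) • e + (h + k + m) • v ∈ K :=
    (hmem _ _).2 ⟨by linarith, hhk, le_rfl, hT⟩
  have m3 : be (h + k) • e + (h + k + m) • v ∈ K :=
    (hmem _ _).2 ⟨by linarith, hhk, hT, le_rfl⟩
  have m4 : be k • e + (k + m) • v ∈ K := (hmem _ _).2 ⟨hk, by linarith, by linarith, le_rfl⟩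
  have m5 : (al h + be k - al (h + k)) • e + (0 + m) • v ∈ K :=
    (hmem _ _).2 ⟨le_rfl, hP.hM.le, by linarith, by linarith⟩
  have m6 : (al h + be k - be (h + k)) • e + (0 + m) • v ∈ K :=
    (hmem _ _).2 ⟨le_rfl, hP.hM.le, by linarith, by linarith⟩
  obtain ⟨c, hcd⟩ : ∃ c : E, c = ((al h + be k) / 2) • e + ((h + k) / 2 + m) • v := ⟨_, rfl⟩
  obtain ⟨p₁, hp₁⟩ : ∃ p : E, p = ((al h + be k) / 2 - al (h + k)) • e + (-((h + k) / 2)) • v :=
    ⟨_, rfl⟩
  obtain ⟨p₂, hp₂⟩ : ∃ p : E, p = ((be k - al h) / 2) • e + ((k - h) / 2) • v := ⟨_, rfl⟩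
  obtain ⟨p₃, hp₃⟩ : ∃ p : E, p = (be (h + k) - (al h + be k) / 2) • e + ((h + k) / 2) • v :=
    ⟨_, rfl⟩
  have h1 : c + p₁ ∈ K := by
    have : c + p₁ = (al h + be k - al (h + k)) • e + (0 + m) • v := by
      rw [hcd, hp₁]
      module
    rw [this]
    exact m5
  have h1' : c - p₁ ∈ K := by
    have : c - p₁ = al (h + k) • e + (h + k + m) • v := by
      rw [hcd, hp₁]
      module
    rw [this]
    exact m2
  have h2 : c + p₂ ∈ K := by
    have : c + p₂ = be k • e + (k + m) • v := by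
      rw [hcd, hp₂]
      module
    rw [this]
    exact m4
  have h2' : c - p₂ ∈ K := by
    have : c - p₂ = al h • e + (h + m) • v := by
      rw [hcd, hp₂]
      module
    rw [this]
    exact m1
  have h3 : c + p₃ ∈ K := by
    have : c + p₃ = be (h + k) • e + (h + k + m) • v := by
      rw [hcd, hp₃]
      module
    rw [this]
    exact m3
  have h3' : c - p₃ ∈ K := by
    have : c - p₃ = (al h + be k - be (h + k)) • e + (0 + m) • v := by
      rw [hcd, hp₃]
      module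
    rw [this]
    exact m6
  have d1 : det2 p₁ p₂ = (k * (be k - al (h + k)) + h * (al (h + k) - al h)) / 2 := by
    rw [hp₁, hp₂, Up_det, hdet]
    ring
  have d2 : det2 p₂ p₃ = (k * (be k - be (h + k)) + h * (be (h + k) - al h)) / 2 := by
    rw [hp₂, hp₃, Up_det, hdet]
    ring
  have d3 : det2 p₁ p₃ = (h + k) * (be (h + k) - al (h + k)) / 2 := by
    rw [hp₁, hp₃, Up_det, hdet]
    ring
  have hsum : det2 p₁ p₂ + det2 p₂ p₃ + det2 p₁ p₃ = Jr al be h k := by
    rw [d1, d2, d3, Jr]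
    ring
  have n1 : 0 ≤ det2 p₁ p₂ := by
    rw [d1]
    have x1 : 0 ≤ k * (be k - al (h + k)) := mul_nonneg hk (by linarith)
    have x2 : 0 ≤ h * (al (h + k) - al h) := mul_nonneg hh (by linarith)
    linarith
  have n2 : 0 ≤ det2 p₂ p₃ := by
    rw [d2]
    have x1 : 0 ≤ k * (be k - be (h + k)) := mul_nonneg hk (by linarith)
    have x2 : 0 ≤ h * (be (h + k) - al h) := mul_nonneg hh (by linarith)
    linarith
  have n3 : 0 ≤ det2 p₁ p₃ := by
    rw [d3]
    have x1 : 0 ≤ (h + k) * (be (h + k) - al (h + k)) := mul_nonneg (by linarith) (by linarith)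
    linarith
  obtain ⟨b, hb, hbv⟩ := hex_lat hc h1 h2 h3 h1' h2' h3' n1 n2 n3 (by rw [hsum]; exact hJ)
  have hL : thetaL K ≤ volume K / volume (parallelepiped b) := iInf₂_le b hb
  rw [hbv, hsum] at hL
  exact hL

end HC60
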