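import Pool.Agent.W_fa9b59_hc.Fin1
import Pool.Agent.W_fa9b59_hc.Coord
import Pool.Agent.W_fa9b59_hc.Low
import Pool.Agent.W_fa9b59_hc.Up
import Pool.Agent.W_fa9b59_h88.Main

set_option autoImplicit false

open MeasureTheory Metric Set

namespace HC60

open FB88 FB88Stmt

/-- the values Jr al be h k are bounded above: k (be k - al (h+k)) ≤ M (be 0 - al 0) etc. -/
theorem jr_bdd {M : ℝ} {al be : ℝ → ℝ} (hP : Prof M al be) {h k : ℝ} (hh : 0 ≤ h) (hk : 0 ≤ k)
    (hhk : h + k ≤ M) : Jr al be h k ≤ 2 * M * (be 0 - al 0) := by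
  have i0 : (0 : ℝ) ∈ Set.Icc 0 M := ⟨le_rfl, hP.hM.le⟩
  have iM : M ∈ Set.Icc 0 M := ⟨hP.hM.le, le_rfl⟩
  have ih : h ∈ Set.Icc 0 M := ⟨hh, by linarith⟩
  have ik : k ∈ Set.Icc 0 M := ⟨hk, by linarith⟩
  have iT : h + k ∈ Set.Icc 0 M := ⟨by linarith, hhk⟩
  have a1 : al 0 ≤ al h := hP.ma i0 ih hh
  have a2 : al 0 ≤ al (h + k) := hP.ma i0 iT (by linarith)
  have b1 : be k ≤ be 0 := hP.mb i0 ik hk
  have b2 : be (h + k) ≤ be 0 := hP.mb i0 iT (by linarith)
  have hw : 0 ≤ be 0 - al 0 := by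
    have h2 := hP.ma i0 iM hP.hM.le
    have h3 := hP.mb i0 iM hP.hM.le
    have h4 := hP.ab
    linarith
  have e1 : k * (be k - al (h + k)) ≤ M * (be 0 - al 0) :=
    (mul_le_mul_of_nonneg_left (by linarith : be k - al (h + k) ≤ be 0 - al 0) hk).trans
      (mul_le_mul_of_nonneg_right (by linarith) hw)
  have e2 : h * (be (h + k) - al h) ≤ M * (be 0 - al 0) :=
    (mul_le_mul_of_nonneg_left (by linarith : be (h + k) - al h ≤ be 0 - al 0) hh).trans
      (mul_le_mul_of_nonneg_right (by linarith) hw)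
  unfold Jr
  linarith

/-- limit of an upper bound: θ * ofReal c is a continuous function of c near s > 0
(`ENNReal.Tendsto.const_mul`, `ENNReal.tendsto_ofReal`, `le_of_tendsto` in `𝓝[<] s`). -/
theorem sup_lim {V θ : ENNReal} {s : ℝ} (hs : 0 < s)
    (h : ∀ c : ℝ, 0 < c → c < s → θ * ENNReal.ofReal c ≤ V) : θ * ENNReal.ofReal s ≤ V := by
  have h1 : Filter.Tendsto (fun c : ℝ => c) (nhdsWithin s (Set.Iio s)) (nhds s) :=
    Filter.Tendsto.mono_left Filter.tendsto_id nhdsWithin_le_nhds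
  have hs0 : ENNReal.ofReal s ≠ 0 := by
    rw [Ne, ENNReal.ofReal_eq_zero, not_le]; exact hs
  have h2 : Filter.Tendsto (fun c : ℝ => θ * ENNReal.ofReal c) (nhdsWithin s (Set.Iio s))
      (nhds (θ * ENNReal.ofReal s)) :=
    ENNReal.Tendsto.const_mul (ENNReal.tendsto_ofReal h1) (Or.inl hs0)
  refine le_of_tendsto h2 ?_
  have h3 : ∀ᶠ c in nhdsWithin s (Set.Iio s), 0 < c := by
    filter_upwards [nhdsWithin_le_nhds (lt_mem_nhds hs)] with c hc
    exact hc
  filter_upwards [h3, self_mem_nhdsWithin] with c hc0 hcs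
  exact h c hc0 hcs

/-- Main theorem. Coordinates from `coord`; s = sSup of the values Jr al be h k (0 ≤ h, 0 ≤ k, h + k ≤ M),
bounded by `jr_bdd`, positive (Jr h 0 = h (be h - al h) > 0 for the h of `coord`). `fin_bound` and `low_hc`:
volume K / ofReal s ≤ thetaT K. `thetaL_le` for all h, k and `sup_lim`: thetaL K ≤ volume K / ofReal s.
`FB88.thetaT_le_thetaL` gives thetaT K ≤ thetaL K. -/
theorem main_hc (K : Set E) (hc : Convex ℝ K) (hk : IsCompact K) (hi : (interior K).Nonempty)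
    (hH : HalfConvex K) : thetaT K = thetaL K := by
  have hK : Body K := ⟨hc, hk, hi.mono interior_subset⟩
  refine le_antisymm (thetaT_le_thetaL K hK) ?_
  obtain ⟨e, v, m, M, al, be, g, hdet, hP, hg, hrel, hmem, h₀, hh0, hhM, hab⟩ := coord hK hi hH
  have hM := hP.hM
  obtain ⟨S, hS⟩ : ∃ S : Set ℝ, S = {J : ℝ | ∃ h k : ℝ, 0 ≤ h ∧ 0 ≤ k ∧ h + k ≤ M ∧
    J = Jr al be h k} := ⟨_, rfl⟩
  have hbdd : BddAbove S := by
    refine ⟨2 * M * (be 0 - al 0), ?_⟩
    rintro J hJ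
    rw [hS] at hJ
    obtain ⟨h, k, hh, hk', hhk, rfl⟩ := hJ
    exact jr_bdd hP hh hk' hhk
  obtain ⟨s, hsdef⟩ : ∃ s : ℝ, s = sSup S := ⟨_, rfl⟩
  have hle : ∀ h k : ℝ, 0 ≤ h → 0 ≤ k → h + k ≤ M → Jr al be h k ≤ s := by
    intro h k hh hk' hhk
    rw [hsdef]
    refine le_csSup hbdd ?_
    rw [hS]
    exact ⟨h, k, hh, hk', hhk, rfl⟩
  have hs : 0 < s := by
    refine lt_of_lt_of_le ?_ (hle h₀ 0 hh0.le le_rfl (by linarith))
    have h1 : Jr al be h₀ 0 = h₀ * (be h₀ - al h₀) := by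
      unfold Jr
      rw [add_zero]
      ring
    rw [h1]
    exact mul_pos hh0 (by linarith)
  have hs0 : ENNReal.ofReal s ≠ 0 := by
    rw [Ne, ENNReal.ofReal_eq_zero, not_le]; exact hs
  have hne : S.Nonempty := by
    refine ⟨Jr al be 0 0, ?_⟩
    rw [hS]
    exact ⟨0, 0, le_rfl, le_rfl, by linarith, rfl⟩
  -- upper bound
  have hup : thetaL K * ENNReal.ofReal s ≤ volume K := by
    refine sup_lim hs fun c hc0 hcs => ?_
    rw [hsdef] at hcs
    obtain ⟨J, hJ, hcJ⟩ := exists_lt_of_lt_csSup hne hcs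
    rw [hS] at hJ
    obtain ⟨h, k, hh, hk', hhk, rfl⟩ := hJ
    have hJ0 : 0 < Jr al be h k := hc0.trans hcJ
    have h1 := thetaL_le hc hdet hP hmem hh hk' hhk hJ0
    have hJne : ENNReal.ofReal (Jr al be h k) ≠ 0 := by
      rw [Ne, ENNReal.ofReal_eq_zero, not_le]; exact hJ0
    rw [ENNReal.le_div_iff_mul_le (Or.inl hJne) (Or.inl ENNReal.ofReal_ne_top)] at h1
    refine le_trans ?_ h1
    exact mul_le_mul_right (ENNReal.ofReal_le_ofReal hcJ.le) _
  have hupper : thetaL K ≤ volume K / ENNReal.ofReal s := by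
    rw [ENNReal.le_div_iff_mul_le (Or.inl hs0) (Or.inl ENNReal.ofReal_ne_top)]
    exact hup
  refine hupper.trans ?_
  refine le_iInf₂ fun T hT => ?_
  exact low_hc hK hdet hP hmem hs (fin_bound hP g hg hrel hle) hT

end HC60
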