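import Pool.Agent.W_fa9b59_hc.Prof

set_option autoImplicit false

open MeasureTheory Metric Set

namespace HC60

open FB88

/-- parallelogram with corner z + α₀ e + β₀ v -/
def par (e v z : E) (α₀ α₁ β₀ β₁ : ℝ) : Set E :=
  {x | ∃ α β : ℝ, α₀ ≤ α ∧ α ≤ α₁ ∧ β₀ ≤ β ∧ β ≤ β₁ ∧ x = z + α • e + β • v}

/-- image of the compact set [α₀,α₁] × [β₀,β₁] under a continuous map -/
theorem par_compact (e v z : E) (α₀ α₁ β₀ β₁ : ℝ) : IsCompact (par e v z α₀ α₁ β₀ β₁) := by
  have h : par e v z α₀ α₁ β₀ β₁ =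
      (fun p : ℝ × ℝ => z + p.1 • e + p.2 • v) '' (Icc α₀ α₁ ×ˢ Icc β₀ β₁) := by
    ext x
    constructor
    · rintro ⟨α, β, h1, h2, h3, h4, rfl⟩
      exact ⟨(α, β), ⟨⟨h1, h2⟩, ⟨h3, h4⟩⟩, rfl⟩
    · rintro ⟨⟨α, β⟩, ⟨⟨h1, h2⟩, ⟨h3, h4⟩⟩, rfl⟩
      exact ⟨α, β, h1, h2, h3, h4, rfl⟩
  rw [h]
  exact (isCompact_Icc.prod isCompact_Icc).image (by fun_prop)

/-- Area. The vectors (α₁-α₀) e, (β₁-β₀) v form a basis b (`basisOfLinearIndependentOfCardEqFinrank`, as in
`FB88.hex_lat`); the set is the translate of parallelepiped b by z + α₀ e + β₀ v; use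
`FB88.vol_parallelepiped` and `measure_preimage_add` / `measure_vadd`. -/
theorem vol_par {e v : E} (hdet : det2 e v = 1) (z : E) {α₀ α₁ β₀ β₁ : ℝ} (hα : α₀ < α₁)
    (hβ : β₀ < β₁) : volume (par e v z α₀ α₁ β₀ β₁) = ENNReal.ofReal ((α₁ - α₀) * (β₁ - β₀)) := by
  have ha : 0 < α₁ - α₀ := sub_pos.2 hα
  have hb : 0 < β₁ - β₀ := sub_pos.2 hβ
  have hdet' : e 0 * v 1 - e 1 * v 0 = 1 := hdet
  have hli : LinearIndependent ℝ ![(α₁ - α₀) • e, (β₁ - β₀) • v] := by
    rw [LinearIndependent.pair_iff]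
    intro s t hst
    have e0 : s * ((α₁ - α₀) * e 0) + t * ((β₁ - β₀) * v 0) = 0 := by
      have := congrArg (fun z : E => z 0) hst
      simpa [mul_add] using this
    have e1 : s * ((α₁ - α₀) * e 1) + t * ((β₁ - β₀) * v 1) = 0 := by
      have := congrArg (fun z : E => z 1) hst
      simpa [mul_add] using this
    constructor
    · have : s * (α₁ - α₀) = 0 := by
        linear_combination v 1 * e0 - v 0 * e1 - s * (α₁ - α₀) * hdet'
      exact (mul_eq_zero.1 this).resolve_right ha.ne'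
    · have : t * (β₁ - β₀) = 0 := by
        linear_combination e 0 * e1 - e 1 * e0 - t * (β₁ - β₀) * hdet'
      exact (mul_eq_zero.1 this).resolve_right hb.ne'
  set b : Module.Basis (Fin 2) ℝ E := basisOfLinearIndependentOfCardEqFinrank hli (by simp) with hbd
  have hb0 : b 0 = (α₁ - α₀) • e := by simp [hbd]
  have hb1 : b 1 = (β₁ - β₀) • v := by simp [hbd]
  have hset : par e v z α₀ α₁ β₀ β₁ =
      (fun x => (-(z + α₀ • e + β₀ • v)) + x) ⁻¹' parallelepiped b := by
    ext x
    rw [mem_preimage, mem_parallelepiped_iff]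
    constructor
    · rintro ⟨α, β, h1, h2, h3, h4, rfl⟩
      refine ⟨![(α - α₀) / (α₁ - α₀), (β - β₀) / (β₁ - β₀)], ⟨?_, ?_⟩, ?_⟩
      · intro i
        fin_cases i
        · exact div_nonneg (by linarith) ha.le
        · exact div_nonneg (by linarith) hb.le
      · intro i
        fin_cases i
        · exact (div_le_one ha).2 (by linarith)
        · exact (div_le_one hb).2 (by linarith)
      · have k1 : ((α - α₀) / (α₁ - α₀)) • (α₁ - α₀) • e = α • e - α₀ • e := by
          rw [smul_smul, div_mul_cancel₀ _ ha.ne', sub_smul]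
        have k2 : ((β - β₀) / (β₁ - β₀)) • (β₁ - β₀) • v = β • v - β₀ • v := by
          rw [smul_smul, div_mul_cancel₀ _ hb.ne', sub_smul]
        rw [Fin.sum_univ_two, hb0, hb1]
        simp only [Matrix.cons_val_zero, Matrix.cons_val_one]
        rw [k1, k2]
        abel
    · rintro ⟨t, ⟨ht0, ht1⟩, hx⟩
      have t00 := ht0 0
      have t01 := ht0 1
      have t10 := ht1 0
      have t11 := ht1 1
      simp only [Pi.zero_apply, Pi.one_apply] at t00 t01 t10 t11
      refine ⟨α₀ + t 0 * (α₁ - α₀), β₀ + t 1 * (β₁ - β₀), ?_, ?_, ?_, ?_, ?_⟩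
      · have := mul_nonneg t00 ha.le
        linarith
      · have := mul_le_of_le_one_left ha.le t10
        linarith
      · have := mul_nonneg t01 hb.le
        linarith
      · have := mul_le_of_le_one_left hb.le t11
        linarith
      · rw [Fin.sum_univ_two, hb0, hb1] at hx
        have hx2 : x = (z + α₀ • e + β₀ • v) + (t 0 • (α₁ - α₀) • e + t 1 • (β₁ - β₀) • v) := by
          rw [← hx]
          abel
        rw [hx2]
        simp only [smul_smul, add_smul]
        abel
  rw [hset, measure_preimage_add, vol_parallelepiped, hb0, hb1]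
  congr 1
  have hd : det2 ((α₁ - α₀) • e) ((β₁ - β₀) • v) = (α₁ - α₀) * (β₁ - β₀) := by
    simp only [det2, PiLp.smul_apply, smul_eq_mul]
    linear_combination (α₁ - α₀) * (β₁ - β₀) * hdet'
  rw [hd, abs_of_pos (mul_pos ha hb)]

/-- coordinates with respect to e, v -/
theorem coord_ev {e v : E} (hdet : det2 e v = 1) (x : E) :
    x = det2 x v • e + det2 e x • v := by
  have hdet' : e 0 * v 1 - e 1 * v 0 = 1 := hdet
  ext i
  simp only [det2, PiLp.add_apply, PiLp.smul_apply, smul_eq_mul]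
  fin_cases i
  · simp only [Fin.zero_eta]
    linear_combination (-(x 0)) * hdet'
  · simp only [Fin.mk_one]
    linear_combination (-(x 1)) * hdet'

end HC60
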