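import Mathlib
import Pool.Agent.W_fa9b59_h88.HexLat

/-!
MP_fa9b59_co, half-convex disks: definitions (paper proof: proofs row 542).

In coordinates a half-convex disk is `{(u, t) : 0 ≤ t ≤ M, al t ≤ u ≤ be t}` with `al` convex
nondecreasing and `be` concave nonincreasing on `[0, M]`.
-/

set_option autoImplicit false

open MeasureTheory Metric Set

namespace HC60

open FB88

/-- profile functions of a half-convex disk -/
structure Prof (M : ℝ) (al be : ℝ → ℝ) : Prop where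
  hM : 0 < M
  ca : ConvexOn ℝ (Set.Icc 0 M) al
  cb : ConcaveOn ℝ (Set.Icc 0 M) be
  ma : MonotoneOn al (Set.Icc 0 M)
  mb : AntitoneOn be (Set.Icc 0 M)
  ab : al M ≤ be M

/-- area of the hexagon (or of the tile) with parameters h, k -/
def Jr (al be : ℝ → ℝ) (h k : ℝ) : ℝ := k * (be k - al (h + k)) + h * (be (h + k) - al h)

/-- the disk with profile al, be contains the point (u, t) -/
def InP (M : ℝ) (al be : ℝ → ℝ) (u t : ℝ) : Prop := 0 ≤ t ∧ t ≤ M ∧ al t ≤ u ∧ u ≤ be t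

/-- finite covering bound with constant s (proved in Fin2.lean) -/
def FinBound (M : ℝ) (al be : ℝ → ℝ) (s : ℝ) : Prop :=
  ∀ (N : ℕ) (x Y : Fin N → ℝ) (A H : ℝ), 0 ≤ A → 0 ≤ H →
    (∀ p q : ℝ, 0 ≤ p → p ≤ A → 0 ≤ q → q ≤ H → ∃ i, InP M al be (p - x i) (q - Y i)) →
    H * (A - (be 0 - al 0)) ≤ N * s

/-- K is a half-convex disk: K lies on one side of a line {f = m}, and the projection of K onto
this line in the direction v is contained in K -/
def HalfConvex (K : Set E) : Prop :=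
  ∃ (f : E →ₗ[ℝ] ℝ) (v : E) (m : ℝ), f v = 1 ∧ (∀ x ∈ K, m ≤ f x) ∧
    ∀ x ∈ K, x - (f x - m) • v ∈ K

/-- the set of the points z such that the parallelogram z + [0,A] e + [0,H] v meets t + K -/
def Wset (K : Set E) (e v : E) (A H : ℝ) (t : E) : Set E :=
  {z | ∃ p q : ℝ, 0 ≤ p ∧ p ≤ A ∧ 0 ≤ q ∧ q ≤ H ∧ z + p • e + q • v - t ∈ K}

end HC60
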