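import Pool.Agent.W_fa9b59_hc.Prof
import Pool.Agent.W_fa9b59_d14.Cert1

set_option autoImplicit false

open MeasureTheory Metric Set

namespace HC60

/-- The grid points are in `[0, M]`. -/
theorem Seqs_mem {M : ℝ} (hM : 0 < M) {n : ℕ} (hn : 0 < n) {i : ℕ} (hi : i ≤ n) :
    (i : ℝ) * (M / n) ∈ Set.Icc 0 M := by
  have hn' : (0 : ℝ) < n := by exact_mod_cast hn
  have hi' : (i : ℝ) ≤ n := by exact_mod_cast hi
  have hη : 0 < M / n := div_pos hM hn'
  refine ⟨mul_nonneg (Nat.cast_nonneg _) hη.le, ?_⟩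
  calc (i : ℝ) * (M / n) ≤ (n : ℝ) * (M / n) := mul_le_mul_of_nonneg_right hi' hη.le
    _ = M := by field_simp

/-- The sampled sequences are half-convex data. `h - 1` is natural subtraction, so the terms with
index 0 and 1 are both equal to al 0 (be 0). Proof: consecutive points of the sample are equally
spaced, convexity on three points t, t+η, t+2η of [0,M] (η = M/n); at index 0 the first increment is 0 and
the following ones are ≥ 0 by monotonicity. `a1`, `b1` (increments nondecreasing) by induction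
on j (`Nat.le_induction`) from the case j = i + 1. -/
theorem hc_seq {M : ℝ} {al be : ℝ → ℝ} (hP : Prof M al be) {n : ℕ} (hn : 0 < n) :
    FA14.HC (n + 1) (fun h => al (((h - 1 : ℕ) : ℝ) * (M / n)))
      (fun h => be (((h - 1 : ℕ) : ℝ) * (M / n))) := by
  have hn' : (0 : ℝ) < n := by exact_mod_cast hn
  have hη : 0 < M / n := div_pos hP.hM hn'
  have hmem : ∀ i : ℕ, i ≤ n → (i : ℝ) * (M / n) ∈ Set.Icc 0 M :=
    fun i hi => Seqs_mem hP.hM hn hi
  have hle : ∀ i j : ℕ, i ≤ j → (i : ℝ) * (M / n) ≤ (j : ℝ) * (M / n) := fun i j hij =>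
    mul_le_mul_of_nonneg_right (by exact_mod_cast hij) hη.le
  -- monotonicity
  have ha0 : ∀ i, i < n + 1 → 0 ≤ al ((((i + 1 - 1 : ℕ) : ℝ)) * (M / n)) -
      al (((i - 1 : ℕ) : ℝ) * (M / n)) := by
    intro i hi
    have := hP.ma (hmem (i - 1) (by omega)) (hmem (i + 1 - 1) (by omega))
      (hle (i - 1) (i + 1 - 1) (by omega))
    linarith
  have hb0 : ∀ i, i < n + 1 → 0 ≤ be (((i - 1 : ℕ) : ℝ) * (M / n)) -
      be ((((i + 1 - 1 : ℕ) : ℝ)) * (M / n)) := by
    intro i hi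
    have := hP.mb (hmem (i - 1) (by omega)) (hmem (i + 1 - 1) (by omega))
      (hle (i - 1) (i + 1 - 1) (by omega))
    linarith
  -- one step of the convexity
  have ha1 : ∀ i, i + 1 < n + 1 → al ((((i + 1 - 1 : ℕ) : ℝ)) * (M / n)) -
      al (((i - 1 : ℕ) : ℝ) * (M / n)) ≤ al ((((i + 1 + 1 - 1 : ℕ) : ℝ)) * (M / n)) -
      al ((((i + 1 - 1 : ℕ) : ℝ)) * (M / n)) := by
    intro i hi
    rcases Nat.eq_zero_or_pos i with h0 | h0
    · subst h0
      have h1 := ha0 1 (by omega)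
      simp only [Nat.reduceAdd, Nat.reduceSub] at h1 ⊢
      norm_num at h1 ⊢
      linarith
    · obtain ⟨j, rfl⟩ : ∃ j, i = j + 1 := ⟨i - 1, by omega⟩
      have h1 := hP.ca.2 (hmem j (by omega)) (hmem (j + 2) (by omega))
        (show (0 : ℝ) ≤ 1 / 2 by norm_num) (show (0 : ℝ) ≤ 1 / 2 by norm_num) (by norm_num)
      have h2 : (1 / 2 : ℝ) • ((j : ℝ) * (M / n)) + (1 / 2 : ℝ) • (((j + 2 : ℕ) : ℝ) * (M / n)) =
          ((j + 1 : ℕ) : ℝ) * (M / n) := by
        push_cast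
        simp only [smul_eq_mul]
        ring
      rw [h2] at h1
      simp only [smul_eq_mul] at h1
      simp only [Nat.add_sub_cancel]
      have e : j + 1 + 1 = j + 2 := rfl
      rw [e]
      linarith
  have hb1 : ∀ i, i + 1 < n + 1 → be (((i - 1 : ℕ) : ℝ) * (M / n)) -
      be ((((i + 1 - 1 : ℕ) : ℝ)) * (M / n)) ≤ be ((((i + 1 - 1 : ℕ) : ℝ)) * (M / n)) -
      be ((((i + 1 + 1 - 1 : ℕ) : ℝ)) * (M / n)) := by
    intro i hi
    rcases Nat.eq_zero_or_pos i with h0 | h0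
    · subst h0
      have h1 := hb0 1 (by omega)
      simp only [Nat.reduceAdd, Nat.reduceSub] at h1 ⊢
      norm_num at h1 ⊢
      linarith
    · obtain ⟨j, rfl⟩ : ∃ j, i = j + 1 := ⟨i - 1, by omega⟩
      have h1 := hP.cb.2 (hmem j (by omega)) (hmem (j + 2) (by omega))
        (show (0 : ℝ) ≤ 1 / 2 by norm_num) (show (0 : ℝ) ≤ 1 / 2 by norm_num) (by norm_num)
      have h2 : (1 / 2 : ℝ) • ((j : ℝ) * (M / n)) + (1 / 2 : ℝ) • (((j + 2 : ℕ) : ℝ) * (M / n)) =
          ((j + 1 : ℕ) : ℝ) * (M / n) := by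
        push_cast
        simp only [smul_eq_mul]
        ring
      rw [h2] at h1
      simp only [smul_eq_mul] at h1
      simp only [Nat.add_sub_cancel]
      have e : j + 1 + 1 = j + 2 := rfl
      rw [e]
      linarith
  refine ⟨ha0, ?_, hb0, ?_⟩
  · intro i j hij hj
    induction j, hij using Nat.le_induction with
    | base => exact le_refl _
    | succ j hij ih =>
      exact (ih (by omega)).trans (ha1 j hj)
  · intro i j hij hj
    induction j, hij using Nat.le_induction with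
    | base => exact le_refl _
    | succ j hij ih =>
      exact (ih (by omega)).trans (hb1 j hj)

/-- Bound for the discrete functional. Let η = M / n, h, k ≥ 1, h0 = (h-1) η, k0 = (k-1) η:
η (PP + QQ) = (k0+η)(be k0 - al (h0+k0+η)) + (h0+η)(be (h0+k0+η) - al h0)
 ≤ (k0+η)(be k0 - al (h0+k0)) + (h0+η)(be (h0+k0) - al h0) = Jr h0 k0 + η (be k0 - al (h0+k0) + be (h0+k0) - al h0)
 ≤ s + 2 (be 0 - al 0) η (monotonicity of al, be; h0 + k0 + η = (h+k-1) η ≤ M). If h = 0, k ≥ 1: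
PP + QQ = k (be ((k-1)η) - al ((k-1)η)), compare with Jr 0 ((k-1) η); the case k = 0, h ≥ 1 is similar
(compare with Jr ((h-1)η) 0);
h = k = 0: 0 ≤ Jr 0 0 ≤ s. Note al t ≤ be t on [0,M] (from al t ≤ al M ≤ be M ≤ be t). -/
theorem hc_sup {M : ℝ} {al be : ℝ → ℝ} (hP : Prof M al be) {n : ℕ} (hn : 0 < n) {s : ℝ}
    (hs : ∀ h k : ℝ, 0 ≤ h → 0 ≤ k → h + k ≤ M → Jr al be h k ≤ s) :
    ∀ h k : ℕ, h + k ≤ n + 1 →
      FA14.PP (fun h => al (((h - 1 : ℕ) : ℝ) * (M / n)))
        (fun h => be (((h - 1 : ℕ) : ℝ) * (M / n))) h k +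
      FA14.QQ (fun h => al (((h - 1 : ℕ) : ℝ) * (M / n)))
        (fun h => be (((h - 1 : ℕ) : ℝ) * (M / n))) h k ≤
      (s + 2 * (be 0 - al 0) * (M / n)) / (M / n) := by
  intro h k hk
  have hn' : (0 : ℝ) < n := by exact_mod_cast hn
  have hη : 0 < M / n := div_pos hP.hM hn'
  have hmem : ∀ i : ℕ, i ≤ n → (i : ℝ) * (M / n) ∈ Set.Icc 0 M :=
    fun i hi => Seqs_mem hP.hM hn hi
  have h0mem : (0 : ℝ) ∈ Set.Icc 0 M := ⟨le_refl _, hP.hM.le⟩
  have hMmem : M ∈ Set.Icc 0 M := ⟨hP.hM.le, le_refl _⟩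
  have hab : ∀ t ∈ Set.Icc 0 M, al t ≤ be t := fun t ht =>
    (hP.ma ht hMmem ht.2).trans (hP.ab.trans (hP.mb ht hMmem ht.2))
  have hal0 : ∀ t ∈ Set.Icc 0 M, al 0 ≤ al t := fun t ht => hP.ma h0mem ht ht.1
  have hbe0 : ∀ t ∈ Set.Icc 0 M, be t ≤ be 0 := fun t ht => hP.mb h0mem ht ht.1
  have hab0 := hab 0 h0mem
  rw [le_div_iff₀ hη]
  unfold FA14.PP FA14.QQ
  rcases Nat.eq_zero_or_pos h with hh | hh
  · subst hh
    rcases Nat.eq_zero_or_pos k with hk0 | hk0
    · subst hk0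
      have h1 := hs 0 0 le_rfl le_rfl (by rw [add_zero]; exact hP.hM.le)
      unfold Jr at h1
      simp only [Nat.cast_zero, zero_mul, add_zero] at h1 ⊢
      have h2 : 0 ≤ 2 * (be 0 - al 0) * (M / n) :=
        mul_nonneg (by linarith) hη.le
      linarith
    · obtain ⟨k', rfl⟩ : ∃ k', k = k' + 1 := ⟨k - 1, by omega⟩
      have hk1 : k' ≤ n := by omega
      have hm := hmem k' hk1
      have h1 := hs 0 ((k' : ℝ) * (M / n)) le_rfl hm.1 (by rw [zero_add]; exact hm.2)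
      unfold Jr at h1
      simp only [zero_add, zero_mul, add_zero, Nat.cast_zero, Nat.add_sub_cancel] at h1 ⊢
      have h2 := hal0 _ hm
      have h3 := hbe0 _ hm
      push_cast
      have h4 : (be ((k' : ℝ) * (M / n)) - al ((k' : ℝ) * (M / n))) * (M / n) ≤
          (be 0 - al 0) * (M / n) := mul_le_mul_of_nonneg_right (by linarith) hη.le
      have h5 : 0 ≤ (be 0 - al 0) * (M / n) := mul_nonneg (by linarith) hη.le
      calc ((k' : ℝ) + 1) * (be ((k' : ℝ) * (M / n)) - al ((k' : ℝ) * (M / n))) * (M / n)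
          = (k' : ℝ) * (M / n) * (be ((k' : ℝ) * (M / n)) - al ((k' : ℝ) * (M / n))) +
            (be ((k' : ℝ) * (M / n)) - al ((k' : ℝ) * (M / n))) * (M / n) := by ring
        _ ≤ s + 2 * (be 0 - al 0) * (M / n) := by linarith
  · obtain ⟨h', rfl⟩ : ∃ h', h = h' + 1 := ⟨h - 1, by omega⟩
    rcases Nat.eq_zero_or_pos k with hk0 | hk0
    · subst hk0
      have hh1 : h' ≤ n := by omega
      have hm := hmem h' hh1
      have h1 := hs ((h' : ℝ) * (M / n)) 0 hm.1 le_rfl (by rw [add_zero]; exact hm.2)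
      unfold Jr at h1
      simp only [zero_add, zero_mul, add_zero, Nat.cast_zero, Nat.add_sub_cancel] at h1 ⊢
      have h2 := hal0 _ hm
      have h3 := hbe0 _ hm
      push_cast
      have h4 : (be ((h' : ℝ) * (M / n)) - al ((h' : ℝ) * (M / n))) * (M / n) ≤
          (be 0 - al 0) * (M / n) := mul_le_mul_of_nonneg_right (by linarith) hη.le
      have h5 : 0 ≤ (be 0 - al 0) * (M / n) := mul_nonneg (by linarith) hη.le
      calc ((h' : ℝ) + 1) * (be ((h' : ℝ) * (M / n)) - al ((h' : ℝ) * (M / n))) * (M / n)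
          = (h' : ℝ) * (M / n) * (be ((h' : ℝ) * (M / n)) - al ((h' : ℝ) * (M / n))) +
            (be ((h' : ℝ) * (M / n)) - al ((h' : ℝ) * (M / n))) * (M / n) := by ring
        _ ≤ s + 2 * (be 0 - al 0) * (M / n) := by linarith
    · obtain ⟨k', rfl⟩ : ∃ k', k = k' + 1 := ⟨k - 1, by omega⟩
      have hhk : h' + k' + 1 ≤ n := by omega
      have hmh := hmem h' (by omega)
      have hmk := hmem k' (by omega)
      have hms := hmem (h' + k') (by omega)
      have hms1 := hmem (h' + k' + 1) hhk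
      have es : ((h' : ℝ) * (M / n)) + ((k' : ℝ) * (M / n)) =
          ((h' + k' : ℕ) : ℝ) * (M / n) := by push_cast; ring
      have h1 := hs ((h' : ℝ) * (M / n)) ((k' : ℝ) * (M / n)) hmh.1 hmk.1
        (by rw [es]; exact hms.2)
      unfold Jr at h1
      rw [es] at h1
      have hle1 : ((h' + k' : ℕ) : ℝ) * (M / n) ≤ ((h' + k' + 1 : ℕ) : ℝ) * (M / n) :=
        mul_le_mul_of_nonneg_right (by exact_mod_cast Nat.le_succ _) hη.le
      have h2 := hP.ma hms hms1 hle1
      have h3 := hP.mb hms hms1 hle1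
      have e1 : h' + 1 + (k' + 1) - 1 = h' + k' + 1 := by omega
      simp only [Nat.add_sub_cancel, e1]
      have hk'0 : (0 : ℝ) ≤ (k' : ℝ) + 1 := by positivity
      have hh'0 : (0 : ℝ) ≤ (h' : ℝ) + 1 := by positivity
      have hA := hal0 _ hms
      have hB := hbe0 _ hms
      have hA' := hal0 _ hmh
      have hB' := hbe0 _ hmk
      generalize be ((k' : ℝ) * (M / n)) = bk at *
      generalize al ((h' : ℝ) * (M / n)) = ah at *
      generalize al (((h' + k' : ℕ) : ℝ) * (M / n)) = as at *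
      generalize be (((h' + k' : ℕ) : ℝ) * (M / n)) = bs at *
      generalize al (((h' + k' + 1 : ℕ) : ℝ) * (M / n)) = as1 at *
      generalize be (((h' + k' + 1 : ℕ) : ℝ) * (M / n)) = bs1 at *
      push_cast
      have h5 : ((k' : ℝ) + 1) * (bk - as1) ≤ ((k' : ℝ) + 1) * (bk - as) :=
        mul_le_mul_of_nonneg_left (by linarith) hk'0
      have h6 : ((h' : ℝ) + 1) * (bs1 - ah) ≤ ((h' : ℝ) + 1) * (bs - ah) :=
        mul_le_mul_of_nonneg_left (by linarith) hh'0
      have h7 : (((k' : ℝ) + 1) * (bk - as1) + ((h' : ℝ) + 1) * (bs1 - ah)) * (M / n) ≤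
          (((k' : ℝ) + 1) * (bk - as) + ((h' : ℝ) + 1) * (bs - ah)) * (M / n) :=
        mul_le_mul_of_nonneg_right (by linarith) hη.le
      have h8 : (bk - as + (bs - ah)) * (M / n) ≤ (2 * (be 0 - al 0)) * (M / n) :=
        mul_le_mul_of_nonneg_right (by linarith) hη.le
      calc (((k' : ℝ) + 1) * (bk - as1) + ((h' : ℝ) + 1) * (bs1 - ah)) * (M / n)
          ≤ (((k' : ℝ) + 1) * (bk - as) + ((h' : ℝ) + 1) * (bs - ah)) * (M / n) := h7
        _ = ((k' : ℝ) * (M / n) * (bk - as) + (h' : ℝ) * (M / n) * (bs - ah)) +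
            (bk - as + (bs - ah)) * (M / n) := by ring
        _ ≤ s + 2 * (be 0 - al 0) * (M / n) := by linarith

end HC60
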