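import Pool.Agent.W_fa9b59_hc.Prof

set_option autoImplicit false

open MeasureTheory Metric Set

namespace HC60

/-- Profile functions of a compact convex set C of the upper half plane which contains the projection
(u, 0) of each of its points (u, t). Proof: M = maximum of t on C, attained at (c, M); by convexity (between (c, 0)
and (c, M)) every section {u : (u, t) ∈ C}, 0 ≤ t ≤ M, is nonempty; it is compact and convex. al t = sInf,
be t = sSup of the section (attained), g u = sSup {t : (u, t) ∈ C} (attained for al 0 ≤ u ≤ be 0).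
(u, t) ∈ C, 0 ≤ t' ≤ t imply (u, t') ∈ C (convexity, (u, 0) ∈ C): this gives the monotonicity and
hrel. Convexity of al: (al t, t), (al t', t') ∈ C, so their convex combination is in C and al is the infimum.
Concavity of be, g in the same way. -/
theorem prof_of_set {C : Set (ℝ × ℝ)} (hc : Convex ℝ C) (hk : IsCompact C)
    (h0 : ∀ u t : ℝ, (u, t) ∈ C → 0 ≤ t) (hp : ∀ u t : ℝ, (u, t) ∈ C → (u, (0 : ℝ)) ∈ C)
    (hw : ∃ u₁ u₂ t : ℝ, 0 < t ∧ u₁ < u₂ ∧ (u₁, t) ∈ C ∧ (u₂, t) ∈ C) :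
    ∃ (M : ℝ) (al be g : ℝ → ℝ), Prof M al be ∧ ConcaveOn ℝ (Set.Icc (al 0) (be 0)) g ∧
      (∀ u t : ℝ, al 0 ≤ u → u ≤ be 0 → 0 ≤ t → (t ≤ g u ↔ t ≤ M ∧ al t ≤ u ∧ u ≤ be t)) ∧
      (∀ u t : ℝ, (u, t) ∈ C ↔ InP M al be u t) ∧
      ∃ h : ℝ, 0 < h ∧ h ≤ M ∧ al h < be h := by
  classical
  obtain ⟨u₁, u₂, t₀, ht₀, hu₁₂, hC₁, hC₂⟩ := hw
  -- maximal height
  obtain ⟨p, hpC, hpmax⟩ := hk.exists_isMaxOn ⟨_, hC₁⟩ continuous_snd.continuousOn
  set M : ℝ := p.2 with hMdef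
  set c : ℝ := p.1 with hcdef
  have hcM : (c, M) ∈ C := hpC
  have hle : ∀ u t : ℝ, (u, t) ∈ C → t ≤ M := fun u t h => hpmax h
  have hMpos : 0 < M := lt_of_lt_of_le ht₀ (hle _ _ hC₁)
  -- vertical segments
  have hvert : ∀ u t t' : ℝ, (u, t) ∈ C → 0 ≤ t' → t' ≤ t → (u, t') ∈ C := by
    intro u t t' h ht' htt
    rcases eq_or_lt_of_le (h0 u t h) with h1 | h1
    · have h2 : t' = t := le_antisymm htt (h1 ▸ ht')
      rw [h2]; exact h
    · have h3 := hc h (hp u t h) (a := t' / t) (b := 1 - t' / t) (by positivity)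
        (by rw [sub_nonneg, div_le_one h1]; exact htt) (by ring)
      have h4 : (t' / t) • ((u, t) : ℝ × ℝ) + (1 - t' / t) • ((u, 0) : ℝ × ℝ) = (u, t') := by
        ext
        · simp only [Prod.smul_mk, Prod.mk_add_mk, smul_eq_mul]; ring
        · simp only [Prod.smul_mk, Prod.mk_add_mk, smul_eq_mul]
          field_simp
          ring
      rw [h4] at h3
      exact h3
  -- sections
  have hSk : ∀ t : ℝ, IsCompact {u : ℝ | (u, t) ∈ C} := by
    intro t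
    have h1 : {u : ℝ | (u, t) ∈ C} = Prod.fst '' (C ∩ {q : ℝ × ℝ | q.2 = t}) := by
      ext u
      constructor
      · intro h; exact ⟨(u, t), ⟨h, rfl⟩, rfl⟩
      · rintro ⟨⟨a, b⟩, ⟨h, h2⟩, h3⟩
        simp only [Set.mem_ofPred_eq] at h2 h3 ⊢
        subst h2; subst h3; exact h
    rw [h1]
    exact (hk.inter_right (isClosed_eq continuous_snd continuous_const)).image continuous_fst
  have hTk : ∀ u : ℝ, IsCompact {t : ℝ | (u, t) ∈ C} := by
    intro u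
    have h1 : {t : ℝ | (u, t) ∈ C} = Prod.snd '' (C ∩ {q : ℝ × ℝ | q.1 = u}) := by
      ext t
      constructor
      · intro h; exact ⟨(u, t), ⟨h, rfl⟩, rfl⟩
      · rintro ⟨⟨a, b⟩, ⟨h, h2⟩, h3⟩
        simp only [Set.mem_ofPred_eq] at h2 h3 ⊢
        subst h2; subst h3; exact h
    rw [h1]
    exact (hk.inter_right (isClosed_eq continuous_fst continuous_const)).image continuous_snd
  set al : ℝ → ℝ := fun t => sInf {u : ℝ | (u, t) ∈ C} with hal
  set be : ℝ → ℝ := fun t => sSup {u : ℝ | (u, t) ∈ C} with hbe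
  set g : ℝ → ℝ := fun u => sSup {t : ℝ | (u, t) ∈ C} with hg
  have hale : ∀ u t : ℝ, (u, t) ∈ C → al t ≤ u := fun u t h => csInf_le (hSk t).bddBelow h
  have hbge : ∀ u t : ℝ, (u, t) ∈ C → u ≤ be t := fun u t h => le_csSup (hSk t).bddAbove h
  have hgge : ∀ u t : ℝ, (u, t) ∈ C → t ≤ g u := fun u t h => le_csSup (hTk u).bddAbove h
  have hne : ∀ t : ℝ, 0 ≤ t → t ≤ M → (c, t) ∈ C := fun t h1 h2 => hvert c M t hcM h1 h2
  have halC : ∀ t : ℝ, 0 ≤ t → t ≤ M → (al t, t) ∈ C := fun t h1 h2 =>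
    (hSk t).sInf_mem ⟨c, hne t h1 h2⟩
  have hbeC : ∀ t : ℝ, 0 ≤ t → t ≤ M → (be t, t) ∈ C := fun t h1 h2 =>
    (hSk t).sSup_mem ⟨c, hne t h1 h2⟩
  -- horizontal segments
  have hhor : ∀ u t : ℝ, 0 ≤ t → t ≤ M → al t ≤ u → u ≤ be t → (u, t) ∈ C := by
    intro u t h1 h2 h3 h4
    have hconv : Convex ℝ {u : ℝ | (u, t) ∈ C} := by
      intro x hx y hy a b ha hb hab
      have h5 := hc hx hy ha hb hab
      have h6 : a • ((x, t) : ℝ × ℝ) + b • ((y, t) : ℝ × ℝ) = (a • x + b • y, t) := by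
        ext
        · simp only [Prod.smul_mk, Prod.mk_add_mk]
        · simp only [Prod.smul_mk, Prod.mk_add_mk, smul_eq_mul]
          rw [← add_mul, hab, one_mul]
      rw [h6] at h5
      exact h5
    exact hconv.ordConnected.out (halC t h1 h2) (hbeC t h1 h2) ⟨h3, h4⟩
  have hiff : ∀ u t : ℝ, (u, t) ∈ C ↔ InP M al be u t := by
    intro u t
    constructor
    · intro h; exact ⟨h0 u t h, hle u t h, hale u t h, hbge u t h⟩
    · rintro ⟨h1, h2, h3, h4⟩; exact hhor u t h1 h2 h3 h4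
  have hgC : ∀ u : ℝ, al 0 ≤ u → u ≤ be 0 → (u, g u) ∈ C := by
    intro u h1 h2
    exact (hTk u).sSup_mem ⟨0, hhor u 0 le_rfl hMpos.le h1 h2⟩
  refine ⟨M, al, be, g, ⟨hMpos, ?_, ?_, ?_, ?_, ?_⟩, ?_, ?_, hiff, t₀, ht₀, hle _ _ hC₁, ?_⟩
  · refine ⟨convex_Icc 0 M, ?_⟩
    intro t ht t' ht' a b ha hb hab
    have h := hc (halC t ht.1 ht.2) (halC t' ht'.1 ht'.2) ha hb hab
    simp only [Prod.smul_mk, Prod.mk_add_mk] at h
    exact hale _ _ h
  · refine ⟨convex_Icc 0 M, ?_⟩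
    intro t ht t' ht' a b ha hb hab
    have h := hc (hbeC t ht.1 ht.2) (hbeC t' ht'.1 ht'.2) ha hb hab
    simp only [Prod.smul_mk, Prod.mk_add_mk] at h
    exact hbge _ _ h
  · intro t ht t' ht' htt
    exact hale _ _ (hvert _ t' t (halC t' ht'.1 ht'.2) ht.1 htt)
  · intro t ht t' ht' htt
    exact hbge _ _ (hvert _ t' t (hbeC t' ht'.1 ht'.2) ht.1 htt)
  · exact (hale c M hcM).trans (hbge c M hcM)
  · refine ⟨convex_Icc _ _, ?_⟩
    intro u hu u' hu' a b ha hb hab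
    have h := hc (hgC u hu.1 hu.2) (hgC u' hu'.1 hu'.2) ha hb hab
    simp only [Prod.smul_mk, Prod.mk_add_mk] at h
    exact hgge _ _ h
  · intro u t h1 h2 h3
    constructor
    · intro h4
      have h5 := hvert u (g u) t (hgC u h1 h2) h3 h4
      exact ⟨hle _ _ h5, hale _ _ h5, hbge _ _ h5⟩
    · rintro ⟨h4, h5, h6⟩
      exact hgge _ _ (hhor u t h3 h4 h5 h6)
  · exact lt_of_le_of_lt (hale _ _ hC₁) (lt_of_lt_of_le hu₁₂ (hbge _ _ hC₂))

end HC60
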